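import Mathlib
import Pool.Agent.H305R2.W2

set_option autoImplicit false

/-!
# Very short windows

The Brun-Titchmarsh bound for the mean of `ff p` over a window whose length may be exponentially
small in `p`, as long as it contains `exp (κ p)` integers.
-/

namespace Pool.Agent.Run7.h129.Two

open Finset Filter Topology MeasureTheory
open Pool.Agent.H305R2 (ff roughPart roughPart_prime SM SM_pos SMz mem_SMz VV ZZ VV_nonneg ZZ_nonneg
  ZZ_le_exp VV_tendsto sum_le_VV tail_le window_upper count_inner sum_rough_eq roughPart_mul)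

/-- a smooth number above `S / p` has a smooth divisor in `[S / p, S]` -/
lemma exists_div {p : ℕ} {S : ℝ} (hS : 1 ≤ S) (s : ℕ) : s ∈ SM p → S / p ≤ s →
    ∃ d ∈ SM p, d ∣ s ∧ S / p ≤ d ∧ (d : ℝ) ≤ S := by
  induction s using Nat.strong_induction_on with
  | _ s ih =>
    intro hs hps
    rcases le_or_gt (s : ℝ) S with h | h
    · exact ⟨s, hs, dvd_rfl, hps, h⟩
    · have hs1 : 1 < s := by
        have : (1 : ℝ) < s := hS.trans_lt h
        exact_mod_cast this
      obtain ⟨r, hr, hrs⟩ := Nat.exists_prime_and_dvd hs1.ne'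
      obtain ⟨t, rfl⟩ := hrs
      have hs0 := SM_pos hs
      have ht0 : 0 < t := Nat.pos_of_mul_pos_left hs0
      have hrp : r < p + 1 := hs.2 r (Nat.mem_primeFactorsList'.2 ⟨hr, dvd_mul_right _ _, hs0.ne'⟩)
      have ht : t ∈ SM p := by
        refine ⟨ht0.ne', fun x hx => hs.2 x ?_⟩
        rw [Nat.mem_primeFactorsList'] at hx ⊢
        exact ⟨hx.1, hx.2.1.mul_left _, hs0.ne'⟩
      have hr0 : (0 : ℝ) < r := by exact_mod_cast hr.pos
      have hrp' : (r : ℝ) ≤ p := by exact_mod_cast Nat.lt_succ_iff.1 hrp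
      have h1 : S / p ≤ t := by
        have h2 : S / p ≤ S / r := div_le_div_of_nonneg_left (by linarith) hr0 hrp'
        refine h2.trans ?_
        rw [div_le_iff₀ hr0]
        push_cast at h
        linarith
      have hlt : t < r * t := lt_mul_of_one_lt_left ht0 hr.one_lt
      obtain ⟨d, hd1, hd2, hd3, hd4⟩ := ih t hlt ht h1
      exact ⟨d, hd1, hd2.mul_left _, hd3, hd4⟩

lemma card_dvd (a b d : ℕ) (hd : 0 < d) (hab : a ≤ b) :
    ((((Finset.Ioc a b).filter (fun n => d ∣ n)).card : ℕ) : ℝ) ≤ ((b - a : ℕ) : ℝ) / d + 1 := by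
  have h1 : ((Finset.Ioc a b).filter (fun n => d ∣ n)).card ≤ (Finset.Ioc (a / d) (b / d)).card := by
    refine Finset.card_le_card_of_injOn (fun n => n / d) ?_ ?_
    · intro n hn
      rw [Finset.mem_coe, Finset.mem_filter, Finset.mem_Ioc] at hn
      rw [Finset.mem_coe, Finset.mem_Ioc]
      obtain ⟨⟨h1, h2⟩, k, rfl⟩ := hn
      simp only [Nat.mul_div_cancel_left k hd]
      constructor
      · rw [Nat.div_lt_iff_lt_mul hd, mul_comm]; exact h1
      · rw [Nat.le_div_iff_mul_le hd, mul_comm]; exact h2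
    · intro n hn m hm hnm
      rw [Finset.mem_coe, Finset.mem_filter] at hn hm
      obtain ⟨_, k, rfl⟩ := hn
      obtain ⟨_, l, rfl⟩ := hm
      simp only [Nat.mul_div_cancel_left _ hd] at hnm
      rw [hnm]
  have hdiv : b / d ≤ a / d + ((b - a) / d + 1) := by
    have h1 : b = a + (b - a) := by omega
    conv_lhs => rw [h1]
    rw [Nat.div_le_iff_le_mul_add_pred hd]
    have h2 := Nat.div_add_mod a d
    have h3 := Nat.div_add_mod (b - a) d
    have h4 := Nat.mod_lt a hd
    have h5 := Nat.mod_lt (b - a) hd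
    have h6 : d * (a / d + ((b - a) / d + 1)) = d * (a / d) + d * ((b - a) / d) + d := by ring
    rw [h6]
    omega
  rw [Nat.card_Ioc] at h1
  have h2 : ((Finset.Ioc a b).filter (fun n => d ∣ n)).card ≤ (b - a) / d + 1 :=
    h1.trans (Nat.sub_le_iff_le_add'.2 hdiv)
  calc ((((Finset.Ioc a b).filter (fun n => d ∣ n)).card : ℕ) : ℝ) ≤ (((b - a) / d + 1 : ℕ) : ℝ) := by
        exact_mod_cast h2
    _ ≤ _ := by
        push_cast
        have := @Nat.cast_div_le ℝ _ _ _ (b - a) d
        linarith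

/-- the numbers with a large smooth part in a short interval -/
lemma large_part {p : ℕ} {S : ℝ} (hS : 1 ≤ S) (hp : 1 ≤ p) {A B : ℕ} (hAB : A ≤ B)
    (hSD : S ≤ ((B - A : ℕ) : ℝ)) :
    (((Ioc A B).filter (fun n => (roughPart p n).Prime ∧
      S ≤ ((n / roughPart p n : ℕ) : ℝ))).card : ℝ) ≤
      2 * ((B - A : ℕ) : ℝ) * ((S / p) ^ (-(1 / 2) : ℝ) * ZZ p) := by
  classical
  have hp0 : (0 : ℝ) < p := by exact_mod_cast hp
  have hSp : 0 < S / p := by positivity
  set DD := (SMz p S).filter (fun d : ℕ => S / p ≤ d) with hDD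
  have hmem : ∀ d ∈ DD, d ∈ SM p ∧ (d : ℝ) ≤ S ∧ S / p ≤ d := by
    intro d hd
    rw [hDD, mem_filter, mem_SMz (by linarith)] at hd
    exact ⟨hd.1.1, hd.1.2, hd.2⟩
  have hsub : (Ioc A B).filter (fun n => (roughPart p n).Prime ∧ S ≤ ((n / roughPart p n : ℕ) : ℝ)) ⊆
      DD.biUnion (fun d => (Ioc A B).filter (fun n => d ∣ n)) := by
    intro n hn
    rw [mem_filter] at hn
    obtain ⟨hn1, hn2, hn3⟩ := hn
    obtain ⟨hpq, s, hs, he⟩ := roughPart_prime hn2
    set q := roughPart p n
    have hq0 : 0 < q := hn2.pos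
    have hdiv : n / q = s := by
      conv_lhs => rw [he]
      exact Nat.mul_div_cancel s hq0
    rw [hdiv] at hn3
    have h1 : S / p ≤ s := by
      refine le_trans ?_ hn3
      rw [div_le_iff₀ hp0]
      have : (1 : ℝ) ≤ p := by exact_mod_cast hp
      nlinarith
    obtain ⟨d, hd1, hd2, hd3, hd4⟩ := exists_div hS s hs h1
    rw [mem_biUnion]
    refine ⟨d, ?_, ?_⟩
    · rw [hDD, mem_filter, mem_SMz (by linarith)]
      exact ⟨⟨hd1, hd4⟩, hd3⟩
    · rw [mem_filter]
      refine ⟨hn1, hd2.trans ?_⟩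
      rw [he]
      exact dvd_mul_right _ _
  calc (((Ioc A B).filter (fun n => (roughPart p n).Prime ∧
      S ≤ ((n / roughPart p n : ℕ) : ℝ))).card : ℝ) ≤
      ((DD.biUnion (fun d => (Ioc A B).filter (fun n => d ∣ n))).card : ℝ) := by
        exact_mod_cast Finset.card_le_card hsub
    _ ≤ ∑ d ∈ DD, (((Ioc A B).filter (fun n => d ∣ n)).card : ℝ) := by
        exact_mod_cast Finset.card_biUnion_le
    _ ≤ ∑ d ∈ DD, 2 * ((B - A : ℕ) : ℝ) * (d : ℝ)⁻¹ := by
        refine Finset.sum_le_sum fun d hd => ?_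
        obtain ⟨h1, h2, h3⟩ := hmem d hd
        have hd0 := SM_pos h1
        have hd0' : (0 : ℝ) < d := by exact_mod_cast hd0
        refine (card_dvd A B d hd0 hAB).trans ?_
        have h4 : 1 ≤ ((B - A : ℕ) : ℝ) / d := by
          rw [le_div_iff₀ hd0', one_mul]
          exact h2.trans hSD
        rw [← div_eq_mul_inv, mul_div_assoc]
        linarith
    _ = 2 * ((B - A : ℕ) : ℝ) * ∑ d ∈ DD, (d : ℝ)⁻¹ := by rw [Finset.mul_sum]
    _ ≤ _ := by
        refine mul_le_mul_of_nonneg_left ?_ (by positivity)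
        exact tail_le p hSp _ fun d hd => ⟨(hmem d hd).1, (hmem d hd).2.2⟩

lemma alg (X C0 K1 κ h p L : ℝ) (hX : X ≠ 0) (hκ : κ ≠ 0) (hp : p ≠ 0) :
    2 / X * (4 * C0 * (3 * (h * X)) / (κ * p) * (K1 * L) + 2 * (3 * (h * X)) * (L / p)) =
      (24 * C0 * K1 * (1 / κ) + 12) * h * (L / p) := by
  field_simp
  ring

/-- **Very short windows.** -/
theorem window_vshort : ∃ K0 : ℝ, 0 < K0 ∧ ∀ κ : ℝ, 0 < κ → ∀ᶠ p : ℕ in atTop,
    ∀ y : ℝ, κ * p ≤ y → ∀ h : ℝ, Real.exp (-(y - κ * p)) ≤ h → h ≤ 1 →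
      ∫ t in Set.Ioc y (y + h), ff p t ≤ K0 * (1 / κ + 1) * h * (Real.log p / p) := by
  obtain ⟨C0, hC01, hBT⟩ := Pool.Agent.Helper601.brun_titchmarsh
  set K1 := Real.exp Real.eulerMascheroniConstant + 1 with hK1
  have hK1pos : 0 < K1 := by positivity
  refine ⟨24 * C0 * K1 + 12, by positivity, fun κ hκ => ?_⟩
  have hV : ∀ᶠ p : ℕ in atTop, VV p / Real.log p < K1 :=
    VV_tendsto.eventually_lt_const (by rw [hK1]; linarith)
  have hZ : ∀ᶠ p : ℕ in atTop, ZZ p ≤ Real.exp (κ / 16 * p) := ZZ_le_exp (by positivity)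
  have hcast := tendsto_natCast_atTop_atTop (R := ℝ)
  have hdecay : ∀ (k : ℕ) (b e : ℝ), 0 < b → 0 < e → ∀ᶠ p : ℕ in atTop, (p : ℝ) ^ k * Real.exp (-(b * p)) < e := by
    intro k b e hb he
    have h1 := (Real.tendsto_pow_mul_exp_neg_atTop_nhds_zero k).comp (hcast.const_mul_atTop hb)
    have h2 := h1.const_mul ((b ^ k)⁻¹)
    rw [mul_zero] at h2
    filter_upwards [h2.eventually_lt_const he] with p hp
    refine lt_of_le_of_lt (le_of_eq ?_) hp
    simp only [Function.comp]
    rw [mul_pow]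
    field_simp
  filter_upwards [hV, hZ, hdecay 2 (κ / 8) 1 (by positivity) one_pos,
    hdecay 0 κ (1 / 2) (by positivity) (by norm_num),
    eventually_ge_atTop 3] with p hpV hpZ hd1 hd2 hp3 y hy h hh hh1
  have hp3' : (3 : ℝ) ≤ p := by exact_mod_cast hp3
  have hp0 : (0 : ℝ) < p := by linarith
  have hlog : 1 ≤ Real.log p := by
    rw [Real.le_log_iff_exp_le hp0]
    have := Real.exp_one_lt_d9
    linarith
  have hh0 : 0 < h := lt_of_lt_of_le (Real.exp_pos _) hh
  have hy0 : 0 < y := lt_of_lt_of_le (by positivity) hy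
  set X := Real.exp y with hX
  have hX0 : 0 < X := Real.exp_pos _
  have hX1 : 1 ≤ X := Real.one_le_exp hy0.le
  set A := ⌊X⌋₊ with hA
  set B := ⌊Real.exp (y + h)⌋₊ with hB
  have hYe : Real.exp (y + h) = X * Real.exp h := by rw [Real.exp_add]
  have hA1 : 1 ≤ A := Nat.floor_pos.2 hX1
  have hAle : (A : ℝ) ≤ X := Nat.floor_le hX0.le
  have hAgt : X < A + 1 := Nat.lt_floor_add_one X
  have hA1' : (1 : ℝ) ≤ A := by exact_mod_cast hA1
  have hBle : (B : ℝ) ≤ X * Real.exp h := by rw [← hYe]; exact Nat.floor_le (Real.exp_pos _).le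
  have hBgt : X * Real.exp h < B + 1 := by rw [← hYe]; exact Nat.lt_floor_add_one _
  have hAB : A ≤ B := Nat.floor_mono (Real.exp_le_exp.2 (by linarith))
  have heh1 : 1 + h ≤ Real.exp h := by have := Real.add_one_le_exp h; linarith
  have heh2 : Real.exp h ≤ 1 + 2 * h := by
    have h1 := Real.abs_exp_sub_one_sub_id_le (x := h) (by rw [abs_of_pos hh0]; exact hh1)
    have h2 := (abs_le.1 h1).2
    nlinarith
  -- the length of the interval of integers
  have hhX : Real.exp (κ * p) ≤ h * X := by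
    calc Real.exp (κ * p) = Real.exp (-(y - κ * p)) * X := by
          rw [hX, ← Real.exp_add]; congr 1; ring
      _ ≤ h * X := mul_le_mul_of_nonneg_right hh hX0.le
  have hek : 2 ≤ Real.exp (κ * p) := by
    rw [pow_zero, one_mul, Real.exp_neg, inv_lt_comm₀ (Real.exp_pos _) (by norm_num)] at hd2
    norm_num at hd2
    exact hd2.le
  have hhX2 : 2 ≤ h * X := hek.trans hhX
  set D := B - (A - 1) with hD
  have hDcast : (D : ℝ) = B - A + 1 := by
    have : D = B - A + 1 := by omega
    rw [this]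
    push_cast [Nat.cast_sub hAB]
    ring
  have hDup : (D : ℝ) ≤ 3 * (h * X) := by
    rw [hDcast]
    have : X * Real.exp h ≤ X * (1 + 2 * h) := mul_le_mul_of_nonneg_left heh2 hX0.le
    linarith
  have hDlow : h * X ≤ D := by
    rw [hDcast]
    have : X * (1 + h) ≤ X * Real.exp h := mul_le_mul_of_nonneg_left heh1 hX0.le
    linarith
  have hDpos : (0 : ℝ) < D := by linarith
  have hAB' : A - 1 ≤ B := by omega
  set S := Real.exp (κ * p / 2) with hS
  have hS0 : 0 < S := Real.exp_pos _
  have hS1 : 1 ≤ S := Real.one_le_exp (by positivity)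
  have hSS : S * S = Real.exp (κ * p) := by rw [hS, ← Real.exp_add]; congr 1; ring
  have hSSD : S * S ≤ D := by rw [hSS]; linarith
  have hSD : S ≤ D := by nlinarith
  -- step 1
  have hstep1 : ∫ t in Set.Ioc y (y + h), ff p t ≤ 1 / (A : ℝ) *
      (((Finset.Ioc (A - 1) B).filter (fun m => (roughPart p m).Prime)).card : ℝ) := by
    refine (window_upper hy0.le).trans ?_
    have hIcc : Finset.Icc A B = Finset.Ioc (A - 1) B := by
      ext x; simp only [Finset.mem_Icc, Finset.mem_Ioc]; omega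
    rw [← hX, ← hA, ← hB, hIcc, ← nsmul_one, nsmul_eq_mul, mul_one, mul_comm, ← nsmul_eq_mul,
      ← Finset.sum_const]
    refine Finset.sum_le_sum fun m hm => ?_
    rw [Finset.mem_filter, Finset.mem_Ioc] at hm
    refine one_div_le_one_div_of_le (by linarith) ?_
    have : A ≤ m := by omega
    exact_mod_cast this
  have hdiv : ∀ s q : ℕ, s ∈ SM p → q.Prime → p < q → s * q / roughPart p (s * q) = s := by
    intro s q hs hq hpq
    rw [roughPart_mul hs hq hpq, Nat.mul_div_cancel _ hq.pos]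
  -- the part with a small smooth factor
  have h1 : (((Ioc (A - 1) B).filter (fun n => (roughPart p n).Prime ∧
      ((n / roughPart p n : ℕ) : ℝ) < S)).card : ℝ) ≤ 4 * C0 * D / (κ * p) * VV p := by
    have h2 : (((Ioc (A - 1) B).filter (fun n => (roughPart p n).Prime ∧
      ((n / roughPart p n : ℕ) : ℝ) < S)).card : ℝ) =
        ∑ m ∈ (Ioc (A - 1) B).filter (fun m => (roughPart p m).Prime),
          (if ((m / roughPart p m : ℕ) : ℝ) < S then (1 : ℝ) else 0) := by
      rw [← Finset.sum_filter, Finset.filter_filter, Finset.sum_const, nsmul_eq_mul, mul_one]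
    rw [h2, sum_rough_eq]
    calc _ ≤ ∑ s ∈ (SMz p (B : ℝ)).filter (fun s : ℕ => (s : ℝ) < S), 4 * C0 * D / (κ * p) * (s : ℝ)⁻¹ := by
          rw [Finset.sum_filter]
          refine Finset.sum_le_sum fun s hs => ?_
          have hs' := (mem_SMz (Nat.cast_nonneg _)).1 hs
          have hsn := SM_pos hs'.1
          have hs0 : (0 : ℝ) < s := by exact_mod_cast hsn
          have h3 : ∀ q ∈ (Ioc ((A - 1) / s) (B / s)).filter (fun q => q.Prime ∧ p < q),
              (if ((s * q / roughPart p (s * q) : ℕ) : ℝ) < S then (1 : ℝ) else 0) =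
              if (s : ℝ) < S then (1 : ℝ) else 0 := by
            intro q hq
            rw [mem_filter] at hq
            rw [hdiv s q hs'.1 hq.2.1 hq.2.2]
          rw [Finset.sum_congr rfl h3]
          split_ifs with hsS
          · rw [Finset.sum_const, nsmul_eq_mul, mul_one]
            obtain ⟨_, hc2⟩ := count_inner hBT p (A - 1) B s hsn hAB'
            rw [← hD] at hc2
            have hHs : S ≤ (D : ℝ) / s := by
              rw [le_div_iff₀ hs0]
              refine le_trans ?_ hSSD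
              exact mul_le_mul_of_nonneg_left hsS.le hS0.le
            have hHs1 : 1 ≤ D / s := by
              rw [Nat.one_le_div_iff hsn]
              have : (1 : ℝ) ≤ (D : ℝ) / s := hS1.trans hHs
              rw [le_div_iff₀ hs0, one_mul] at this
              exact_mod_cast this
            refine (hc2 (by omega)).trans ?_
            have hup : ((D / s + 1 : ℕ) : ℝ) ≤ 2 * (D / s) := by
              push_cast
              have := @Nat.cast_div_le ℝ _ _ _ D s
              have : (1 : ℝ) ≤ (D : ℝ) / s := hS1.trans hHs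
              linarith
            have hlow : S ≤ ((D / s + 1 : ℕ) : ℝ) := by
              have h5 : (D : ℝ) / s < ((D / s : ℕ) : ℝ) + 1 := by
                rw [div_lt_iff₀ hs0]
                have := Nat.lt_mul_div_succ D hsn
                have h6 : (D : ℝ) < ((s * (D / s + 1) : ℕ) : ℝ) := by exact_mod_cast this
                push_cast at h6
                linarith
              push_cast
              linarith
            have hlog' : κ * p / 2 ≤ Real.log ((D / s + 1 : ℕ) : ℝ) := by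
              calc κ * p / 2 = Real.log S := by rw [hS, Real.log_exp]
                _ ≤ _ := Real.log_le_log hS0 hlow
            have hpL : 0 < κ * p / 2 := by positivity
            calc C0 * ((D / s + 1 : ℕ) : ℝ) / Real.log ((D / s + 1 : ℕ) : ℝ) ≤
                C0 * (2 * (D / s)) / (κ * p / 2) := by
                  gcongr
              _ = _ := by field_simp; ring
          · simp
      _ = 4 * C0 * D / (κ * p) * ∑ s ∈ (SMz p (B : ℝ)).filter (fun s : ℕ => (s : ℝ) < S), (s : ℝ)⁻¹ := by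
          rw [Finset.mul_sum]
      _ ≤ _ := by
          refine mul_le_mul_of_nonneg_left ?_ (by positivity)
          refine sum_le_VV p _ fun s hs => ?_
          rw [mem_filter, mem_SMz (Nat.cast_nonneg _)] at hs
          exact hs.1.1
  have h2 := large_part (p := p) (A := A - 1) (B := B) hS1 (by omega) hAB' hSD
  rw [← hD] at h2
  have h3 : (((Ioc (A - 1) B).filter (fun n => (roughPart p n).Prime)).card : ℝ) ≤
      4 * C0 * D / (κ * p) * VV p + 2 * D * ((S / p) ^ (-(1 / 2) : ℝ) * ZZ p) := by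
    have hsub : (Ioc (A - 1) B).filter (fun n => (roughPart p n).Prime) ⊆
        (Ioc (A - 1) B).filter (fun n => (roughPart p n).Prime ∧ ((n / roughPart p n : ℕ) : ℝ) < S) ∪
        (Ioc (A - 1) B).filter (fun n => (roughPart p n).Prime ∧ S ≤ ((n / roughPart p n : ℕ) : ℝ)) := by
      intro n hn
      rw [mem_filter] at hn
      rw [mem_union, mem_filter, mem_filter]
      rcases lt_or_ge ((n / roughPart p n : ℕ) : ℝ) S with h | h
      · left; exact ⟨hn.1, hn.2, h⟩
      · right; exact ⟨hn.1, hn.2, h⟩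
    have h4 := (Finset.card_le_card hsub).trans (Finset.card_union_le _ _)
    have h5 : (((Ioc (A - 1) B).filter (fun n => (roughPart p n).Prime)).card : ℝ) ≤
        (((Ioc (A - 1) B).filter (fun n => (roughPart p n).Prime ∧
          ((n / roughPart p n : ℕ) : ℝ) < S)).card : ℝ) +
        (((Ioc (A - 1) B).filter (fun n => (roughPart p n).Prime ∧
          S ≤ ((n / roughPart p n : ℕ) : ℝ))).card : ℝ) := by exact_mod_cast h4
    linarith
  have hVle : VV p ≤ K1 * Real.log p := by
    rw [div_lt_iff₀ (by linarith)] at hpV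
    exact hpV.le
  have hZ0 := ZZ_nonneg p
  have hV0 := VV_nonneg p
  have hw0 : 0 ≤ Real.log p / p := by positivity
  have hAinv : 1 / (A : ℝ) ≤ 2 / X := by
    rw [div_le_div_iff₀ (by linarith) hX0]
    linarith
  have hexp : (S / p) ^ (-(1 / 2) : ℝ) * ZZ p ≤ Real.log p / p := by
    have e1 : (S / p) ^ (-(1 / 2) : ℝ) ≤ Real.exp (-(κ * p / 4)) * p := by
      rw [Real.div_rpow hS0.le hp0.le]
      have e2 : S ^ (-(1 / 2) : ℝ) = Real.exp (-(κ * p / 4)) := by
        rw [hS, ← Real.exp_mul]; congr 1; ring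
      rw [e2, div_eq_mul_inv]
      refine mul_le_mul_of_nonneg_left ?_ (Real.exp_pos _).le
      rw [← Real.rpow_neg hp0.le, neg_neg]
      calc (p : ℝ) ^ (1 / 2 : ℝ) ≤ (p : ℝ) ^ (1 : ℝ) :=
            Real.rpow_le_rpow_of_exponent_le (by linarith) (by norm_num)
        _ = p := Real.rpow_one _
    have e3 : (S / p) ^ (-(1 / 2) : ℝ) * ZZ p ≤ Real.exp (-(κ / 8 * p)) * p := by
      calc (S / p) ^ (-(1 / 2) : ℝ) * ZZ p ≤ (Real.exp (-(κ * p / 4)) * p) * Real.exp (κ / 16 * p) :=
            mul_le_mul e1 hpZ hZ0 (by positivity)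
        _ = Real.exp (-(κ * p / 4) + κ / 16 * p) * p := by rw [Real.exp_add]; ring
        _ ≤ _ := by
            refine mul_le_mul_of_nonneg_right (Real.exp_le_exp.2 ?_) hp0.le
            have : 0 < κ * p := by positivity
            linarith
    refine e3.trans ?_
    rw [le_div_iff₀ hp0]
    calc Real.exp (-(κ / 8 * p)) * p * p = (p : ℝ) ^ 2 * Real.exp (-(κ / 8 * p)) := by ring
      _ ≤ 1 := hd1.le
      _ ≤ _ := hlog
  calc ∫ t in Set.Ioc y (y + h), ff p t ≤ 1 / (A : ℝ) *
      (((Finset.Ioc (A - 1) B).filter (fun m => (roughPart p m).Prime)).card : ℝ) := hstep1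
    _ ≤ 2 / X * (4 * C0 * D / (κ * p) * (K1 * Real.log p) + 2 * D * (Real.log p / p)) := by
        refine mul_le_mul hAinv (h3.trans ?_) (by positivity) (by positivity)
        gcongr
    _ ≤ 2 / X * (4 * C0 * (3 * (h * X)) / (κ * p) * (K1 * Real.log p) +
          2 * (3 * (h * X)) * (Real.log p / p)) := by
        gcongr
    _ = (24 * C0 * K1 * (1 / κ) + 12) * h * (Real.log p / p) :=
        alg X C0 K1 κ h p _ hX0.ne' hκ.ne' hp0.ne'
    _ ≤ _ := by
        refine mul_le_mul_of_nonneg_right (mul_le_mul_of_nonneg_right ?_ hh0.le) hw0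
        have : 0 < 1 / κ := by positivity
        have : 0 ≤ 24 * C0 * K1 := by positivity
        nlinarith

end Pool.Agent.Run7.h129.Two
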