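import Mathlib
import Pool.Agent.Run7.h129.Two.Short
import Pool.Agent.Y122.PC.Sum

set_option autoImplicit false

/-!
# Triples of levels

The mean over a box of the product of three indicators: the third level is averaged along the
direction which fixes the second level, over a distance which is shorter than the cells of the first
level.
-/

namespace Pool.Agent.Run7.h129.Two

open Finset Filter Topology MeasureTheory
open Pool.Agent.H305R2 (ff NN ff_nonneg ff_le_one measurable_ff measurable_NN integrableOn_ff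
  roughPart)
open Pool.Agent.Y122.PC (Bx F F_nonneg F_le_one measurable_F integrable_of_bdd shift_le w)

/-- the product of the three indicators -/
noncomputable def F3 (a b c : ℕ) (z : ℝ × ℝ) : ℝ :=
  ff a (a * z.1 + z.2) * ff b (b * z.1 + z.2) * ff c (c * z.1 + z.2)

lemma F3_nonneg (a b c : ℕ) (z : ℝ × ℝ) : 0 ≤ F3 a b c z :=
  mul_nonneg (mul_nonneg (ff_nonneg _ _) (ff_nonneg _ _)) (ff_nonneg _ _)

lemma F3_le_one (a b c : ℕ) (z : ℝ × ℝ) : F3 a b c z ≤ 1 :=
  mul_le_one₀ (mul_le_one₀ (ff_le_one _ _) (ff_nonneg _ _) (ff_le_one _ _)) (ff_nonneg _ _)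
    (ff_le_one _ _)

lemma measurable_F3 (a b c : ℕ) : Measurable (F3 a b c) :=
  (((measurable_ff a).comp (by fun_prop)).mul ((measurable_ff b).comp (by fun_prop))).mul
    ((measurable_ff c).comp (by fun_prop))

/-- mean along a line -/
lemma dir_avg {c : ℕ} {δ t h K Y0 η : ℝ} (hδ : 1 ≤ |δ|) (hh : 0 < h) (hη : η ≤ h)
    (h1 : |δ| * h ≤ 1) (ht : Y0 + 1 ≤ t)
    (Hw : ∀ y : ℝ, Y0 ≤ y → ∀ l : ℝ, η ≤ l → l ≤ 1 → ∫ s in Set.Ioc y (y + l), ff c s ≤ K * l) :
    ∫ u in Set.Ioc 0 h, ff c (t + δ * u) ≤ K * h := by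
  have hδ0 : δ ≠ 0 := by
    rintro rfl
    simp at hδ
    linarith
  rw [← intervalIntegral.integral_of_le hh.le, intervalIntegral.integral_comp_add_mul _ hδ0, mul_zero,
    add_zero, smul_eq_mul]
  have hl : η ≤ |δ| * h := by nlinarith
  rcases lt_or_gt_of_ne hδ0 with hneg | hpos
  · rw [abs_of_neg hneg] at h1 hl hδ
    have h2 := Hw (t + δ * h) (by linarith) (-δ * h) hl h1
    have e : t + δ * h + -δ * h = t := by ring
    rw [e] at h2
    rw [intervalIntegral.integral_symm, intervalIntegral.integral_of_le (by nlinarith)]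
    have h3 : 0 < (-δ)⁻¹ := inv_pos.2 (by linarith)
    have h4 := mul_le_mul_of_nonneg_left h2 h3.le
    calc δ⁻¹ * -∫ x in Set.Ioc (t + δ * h) t, ff c x = (-δ)⁻¹ * ∫ x in Set.Ioc (t + δ * h) t, ff c x := by
          rw [inv_neg]; ring
      _ ≤ (-δ)⁻¹ * (K * (-δ * h)) := h4
      _ = K * h := by field_simp
  · rw [abs_of_pos hpos] at h1 hl hδ
    have h2 := Hw t (by linarith) (δ * h) hl h1
    rw [intervalIntegral.integral_of_le (by nlinarith)]
    have h3 : 0 < δ⁻¹ := inv_pos.2 hpos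
    have h4 := mul_le_mul_of_nonneg_left h2 h3.le
    calc δ⁻¹ * ∫ x in Set.Ioc t (t + δ * h), ff c x ≤ δ⁻¹ * (K * (δ * h)) := h4
      _ = K * h := by field_simp

lemma NN_mono : Monotone NN := by
  intro s t hst
  unfold NN
  have := Nat.ceil_mono (Real.exp_le_exp.2 hst)
  omega

lemma NN_lt (s : ℝ) : (NN s : ℝ) ≤ Real.exp s := by
  unfold NN
  have h1 : 0 < ⌈Real.exp s⌉₊ := Nat.ceil_pos.2 (Real.exp_pos s)
  have h2 : ⌈Real.exp s⌉₊ - 1 < ⌈Real.exp s⌉₊ := by omega
  exact (Nat.lt_ceil.1 h2).le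

lemma ff_shift_le (p : ℕ) {s v r : ℝ} (hv : |v| ≤ r) :
    ff p (s + v) ≤ ff p s + ((NN (s + r) : ℝ) - NN (s - r)) := by
  obtain ⟨h1, h2⟩ := abs_le.1 hv
  have hr : 0 ≤ r := (abs_nonneg v).trans hv
  have m1 : NN (s - r) ≤ NN (s + v) := NN_mono (by linarith)
  have m2 : NN (s + v) ≤ NN (s + r) := NN_mono (by linarith)
  have m3 : NN (s - r) ≤ NN s := NN_mono (by linarith)
  have m4 : NN s ≤ NN (s + r) := NN_mono (by linarith)
  rcases (m1.trans m2).eq_or_lt with h | h
  · have e : NN (s + v) = NN s := by omega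
    unfold ff
    rw [e, h]
    linarith
  · have h3 : ((NN (s - r) : ℕ) : ℝ) + 1 ≤ NN (s + r) := by exact_mod_cast h
    have := ff_le_one p (s + v)
    have := ff_nonneg p s
    linarith

lemma gNN_int (u v : ℝ) : IntervalIntegrable (fun s => (NN s : ℝ)) volume u v :=
  Monotone.intervalIntegrable (fun _ _ h => by exact_mod_cast NN_mono h)

/-- the measure of the vicinity of the boundaries of the cells -/
lemma bdry_line (A y0 y1 r : ℝ) (hy : y0 ≤ y1) (hr : 0 ≤ r) :
    ∫ y in Set.Ioc y0 y1, ((NN (A + y + r) : ℝ) - NN (A + y - r)) ≤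
      2 * r * Real.exp (A + y1 + r) := by
  rw [← intervalIntegral.integral_of_le hy]
  have i1 : IntervalIntegrable (fun y => (NN (A + y + r) : ℝ)) volume y0 y1 :=
    Monotone.intervalIntegrable (fun x y h => by
      have : NN (A + x + r) ≤ NN (A + y + r) := NN_mono (by linarith)
      exact_mod_cast this)
  have i2 : IntervalIntegrable (fun y => (NN (A + y - r) : ℝ)) volume y0 y1 :=
    Monotone.intervalIntegrable (fun x y h => by
      have : NN (A + x - r) ≤ NN (A + y - r) := NN_mono (by linarith)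
      exact_mod_cast this)
  rw [intervalIntegral.integral_sub i1 i2]
  have e1 : ∫ y in y0..y1, (NN (A + y + r) : ℝ) = ∫ s in (A + r + y0)..(A + r + y1), (NN s : ℝ) := by
    rw [← intervalIntegral.integral_comp_add_left (fun s => (NN s : ℝ)) (A + r)]
    refine intervalIntegral.integral_congr fun y _ => ?_
    congr 2
    ring
  have e2 : ∫ y in y0..y1, (NN (A + y - r) : ℝ) = ∫ s in (A - r + y0)..(A - r + y1), (NN s : ℝ) := by
    rw [← intervalIntegral.integral_comp_add_left (fun s => (NN s : ℝ)) (A - r)]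
    refine intervalIntegral.integral_congr fun y _ => ?_
    congr 2
    ring
  rw [e1, e2, intervalIntegral.integral_interval_sub_interval_comm (gNN_int _ _) (gNN_int _ _)
    (gNN_int _ _)]
  have h1 : ∫ s in (A + r + y0)..(A - r + y0), (NN s : ℝ) ≤ 0 := by
    rw [intervalIntegral.integral_symm, neg_nonpos]
    exact intervalIntegral.integral_nonneg (by linarith) fun s _ => Nat.cast_nonneg _
  have h2 : -∫ s in (A + r + y1)..(A - r + y1), (NN s : ℝ) ≤ 2 * r * Real.exp (A + y1 + r) := by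
    rw [← intervalIntegral.integral_symm]
    calc ∫ s in (A - r + y1)..(A + r + y1), (NN s : ℝ) ≤
        ∫ _s in (A - r + y1)..(A + r + y1), Real.exp (A + y1 + r) := by
          refine intervalIntegral.integral_mono_on (by linarith) (gNN_int _ _)
            intervalIntegrable_const fun s hs => (NN_lt s).trans (Real.exp_le_exp.2 ?_)
          linarith [hs.2]
      _ = _ := by
          rw [intervalIntegral.integral_const, smul_eq_mul]
          ring
  linarith

lemma measurableSet_Bx (x0 x1 y0 y1 : ℝ) : MeasurableSet (Bx x0 x1 y0 y1) :=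
  measurableSet_Ioc.prod measurableSet_Ioc

lemma vol_Bx_ne_top (x0 x1 y0 y1 : ℝ) : volume (Bx x0 x1 y0 y1) ≠ ⊤ := by
  unfold Bx
  rw [Measure.volume_eq_prod, Measure.prod_prod]
  exact (ENNReal.mul_lt_top (by simp) (by simp)).ne

/-- the difference of the cells -/
noncomputable def Δ (a : ℕ) (r : ℝ) (z : ℝ × ℝ) : ℝ :=
  (NN (a * z.1 + z.2 + r) : ℝ) - NN (a * z.1 + z.2 - r)

lemma Δ_nonneg (a : ℕ) {r : ℝ} (hr : 0 ≤ r) (z : ℝ × ℝ) : 0 ≤ Δ a r z := by
  unfold Δ
  have : NN (a * z.1 + z.2 - r) ≤ NN (a * z.1 + z.2 + r) := NN_mono (by linarith)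
  have : (NN (a * z.1 + z.2 - r) : ℝ) ≤ NN (a * z.1 + z.2 + r) := by exact_mod_cast this
  linarith

lemma measurable_Δ (a : ℕ) (r : ℝ) : Measurable (Δ a r) := by
  have hm : Measurable (fun s : ℝ => (NN s : ℝ)) :=
    (measurable_from_nat (f := fun n : ℕ => (n : ℝ))).comp measurable_NN
  exact (hm.comp (by fun_prop)).sub (hm.comp (by fun_prop))

lemma Δ_le (a : ℕ) {x0 x1 y0 y1 r : ℝ} (z : ℝ × ℝ) (hz : z ∈ Bx x0 x1 y0 y1) :
    Δ a r z ≤ Real.exp (a * x1 + y1 + r) := by
  obtain ⟨⟨_, hx⟩, _, hy⟩ := hz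
  unfold Δ
  have h1 := NN_lt (a * z.1 + z.2 + r)
  have h2 : (0 : ℝ) ≤ NN (a * z.1 + z.2 - r) := Nat.cast_nonneg _
  have h3 : (a : ℝ) * z.1 ≤ a * x1 := mul_le_mul_of_nonneg_left hx (Nat.cast_nonneg _)
  have h4 : Real.exp (a * z.1 + z.2 + r) ≤ Real.exp (a * x1 + y1 + r) :=
    Real.exp_le_exp.2 (by linarith)
  linarith

lemma integrableOn_Δ (a : ℕ) (x0 x1 y0 y1 : ℝ) {r : ℝ} (hr : 0 ≤ r) :
    IntegrableOn (Δ a r) (Bx x0 x1 y0 y1) volume := by
  refine Measure.integrableOn_of_bounded (M := Real.exp (a * x1 + y1 + r)) (vol_Bx_ne_top _ _ _ _)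
    (measurable_Δ a r).aestronglyMeasurable ?_
  filter_upwards [ae_restrict_mem (measurableSet_Bx x0 x1 y0 y1)] with z hz
  rw [Real.norm_of_nonneg (Δ_nonneg a hr z)]
  exact Δ_le a z hz

lemma bdry_box (a : ℕ) {x0 x1 y0 y1 r : ℝ} (hx : x0 ≤ x1) (hy : y0 ≤ y1) (hr : 0 ≤ r) :
    ∫ z in Bx x0 x1 y0 y1, Δ a r z ≤ (x1 - x0) * (2 * r * Real.exp (a * x1 + y1 + r)) := by
  have hi := integrableOn_Δ a x0 x1 y0 y1 hr
  unfold Bx at hi ⊢
  rw [Measure.volume_eq_prod] at hi ⊢
  rw [setIntegral_prod _ hi]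
  calc ∫ x in Set.Ioc x0 x1, ∫ y in Set.Ioc y0 y1, Δ a r (x, y) ≤
      ∫ _x in Set.Ioc x0 x1, (2 * r * Real.exp (a * x1 + y1 + r)) := by
        refine setIntegral_mono_on ?_ ?_ measurableSet_Ioc fun x hx' => ?_
        · rw [IntegrableOn, ← Measure.prod_restrict] at hi
          exact hi.integral_prod_left
        · exact integrableOn_const (by simp)
        · refine (bdry_line (a * x) y0 y1 r hy hr).trans ?_
          refine mul_le_mul_of_nonneg_left (Real.exp_le_exp.2 ?_) (by positivity)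
          have : (a : ℝ) * x ≤ a * x1 := mul_le_mul_of_nonneg_left hx'.2 (Nat.cast_nonneg _)
          linarith
    _ = _ := by
        rw [setIntegral_const, smul_eq_mul, Real.volume_real_Ioc_of_le hx]

/-- the shift which fixes the level `b` -/
noncomputable def vs (b : ℕ) (u : ℝ) : ℝ × ℝ := (u, -(b * u))

lemma F3_vs (a b c : ℕ) (z : ℝ × ℝ) (u : ℝ) : F3 a b c (z + vs b u) =
    ff a (a * z.1 + z.2 + ((a : ℝ) - b) * u) * ff b (b * z.1 + z.2) *
      ff c (c * z.1 + z.2 + ((c : ℝ) - b) * u) := by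
  unfold F3 vs
  simp only [Prod.fst_add, Prod.snd_add]
  congr 1
  · congr 1
    · congr 1; ring
    · congr 1; ring
  · congr 1; ring

/-- **Shift of the third level.** -/
theorem shift3 {a b c : ℕ} {h r K : ℝ} (hh : 0 < h) (hr : |(a : ℝ) - b| * h ≤ r) {S : Set (ℝ × ℝ)}
    (hS : MeasurableSet S) (hfin : volume S ≠ ⊤) {x0 x1 y0 y1 : ℝ}
    (hmem : ∀ z ∈ S, ∀ u ∈ Set.Ioc 0 h, z - vs b u ∈ Bx x0 x1 y0 y1)
    (havg : ∀ z ∈ Bx x0 x1 y0 y1,
      ∫ u in Set.Ioc 0 h, ff c (c * z.1 + z.2 + ((c : ℝ) - b) * u) ≤ K * h) :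
    ∫ z in S, F3 a b c z ≤ K * (∫ z in Bx x0 x1 y0 y1, F a b z) +
      ∫ z in Bx x0 x1 y0 y1, Δ a r z := by
  have hr0 : 0 ≤ r := (mul_nonneg (abs_nonneg _) hh.le).trans hr
  set B := Bx x0 x1 y0 y1 with hB
  have hBm : MeasurableSet B := measurableSet_Bx _ _ _ _
  have hBfin : volume B ≠ ⊤ := vol_Bx_ne_top _ _ _ _
  have : IsFiniteMeasure (volume.restrict B) := ⟨by
      rw [Measure.restrict_apply_univ]; exact lt_top_iff_ne_top.2 hBfin⟩
  have : IsFiniteMeasure (volume.restrict (Set.Ioc (0 : ℝ) h)) := ⟨by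
      rw [Measure.restrict_apply_univ]; simp⟩
  have hker : Measurable (fun k : ℝ × (ℝ × ℝ) => F3 a b c (k.2 + vs b k.1)) := by
    refine (measurable_F3 a b c).comp ?_
    unfold vs
    fun_prop
  have hint : Integrable (fun k : ℝ × (ℝ × ℝ) => F3 a b c (k.2 + vs b k.1))
      ((volume.restrict (Set.Ioc (0 : ℝ) h)).prod (volume.restrict B)) :=
    integrable_of_bdd hker (fun k => F3_nonneg _ _ _ _) (C := 1) (fun k => F3_le_one _ _ _ _)
  -- the shift
  have h1 : h * ∫ z in S, F3 a b c z ≤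
      ∫ u in Set.Ioc 0 h, ∫ z in B, F3 a b c (z + vs b u) := by
    have e : h * ∫ z in S, F3 a b c z = ∫ _u in Set.Ioc 0 h, ∫ z in S, F3 a b c z := by
      rw [setIntegral_const, smul_eq_mul, Real.volume_real_Ioc_of_le hh.le, sub_zero]
    rw [e]
    refine setIntegral_mono_on (integrableOn_const (by simp)) ?_ measurableSet_Ioc fun u hu => ?_
    · exact hint.integral_prod_left
    · have h3 := shift_le hS hBm hBfin hfin (f := fun z => F3 a b c (z + vs b u))
        ((measurable_F3 a b c).comp (measurable_add_const _)) (fun z => F3_nonneg a b c _)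
        (fun z => F3_le_one a b c _) (-(vs b u)) (fun z hz => by
          rw [← sub_eq_add_neg]; exact hmem z hz u hu)
      simpa only [neg_add_cancel_right] using h3
  rw [integral_integral_swap hint] at h1
  have hF : IntegrableOn (F a b) B volume := integrable_of_bdd (measurable_F a b) (F_nonneg a b)
    (F_le_one a b)
  have hD : IntegrableOn (Δ a r) B volume := integrableOn_Δ a _ _ _ _ hr0
  have h2 : ∫ z in B, ∫ u in Set.Ioc 0 h, F3 a b c (z + vs b u) ≤
      ∫ z in B, (K * h * F a b z + h * Δ a r z) := by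
    refine setIntegral_mono_on hint.integral_prod_right ((hF.const_mul _).add (hD.const_mul _))
      hBm fun z hz => ?_
    have hmc : Measurable (fun u : ℝ => ff c (c * z.1 + z.2 + ((c : ℝ) - b) * u)) :=
      (measurable_ff c).comp (by fun_prop)
    have hic : IntegrableOn (fun u : ℝ => ff c (c * z.1 + z.2 + ((c : ℝ) - b) * u)) (Set.Ioc 0 h)
        volume := integrable_of_bdd hmc (fun _ => ff_nonneg _ _) (C := 1) (fun _ => ff_le_one _ _)
    have hi1 : IntegrableOn (fun u : ℝ => F3 a b c (z + vs b u)) (Set.Ioc 0 h) volume := by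
      refine integrable_of_bdd ((measurable_F3 a b c).comp ?_) (fun _ => F3_nonneg _ _ _ _)
        (C := 1) (fun _ => F3_le_one _ _ _ _)
      unfold vs
      fun_prop
    calc ∫ u in Set.Ioc 0 h, F3 a b c (z + vs b u) ≤
        ∫ u in Set.Ioc 0 h, (F a b z * ff c (c * z.1 + z.2 + ((c : ℝ) - b) * u) + Δ a r z) := by
          refine setIntegral_mono_on hi1 ((hic.const_mul _).add (integrableOn_const (by simp)))
            measurableSet_Ioc fun u hu => ?_
          rw [F3_vs]
          have e1 : |((a : ℝ) - b) * u| ≤ r := by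
            rw [abs_mul, abs_of_pos hu.1]
            exact (mul_le_mul_of_nonneg_left hu.2 (abs_nonneg _)).trans hr
          have h3 := ff_shift_le a (s := a * z.1 + z.2) e1
          have h4 := ff_nonneg b (b * z.1 + z.2)
          have h5 := ff_le_one b (b * z.1 + z.2)
          have h6 := ff_nonneg c (c * z.1 + z.2 + ((c : ℝ) - b) * u)
          have h7 := ff_le_one c (c * z.1 + z.2 + ((c : ℝ) - b) * u)
          have h8 := Δ_nonneg a hr0 z
          have h9 : (0 : ℝ) ≤ ff b (b * z.1 + z.2) * ff c (c * z.1 + z.2 + ((c : ℝ) - b) * u) :=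
            mul_nonneg h4 h6
          have h10 : ff b (b * z.1 + z.2) * ff c (c * z.1 + z.2 + ((c : ℝ) - b) * u) ≤ 1 :=
            mul_le_one₀ h5 h6 h7
          have h11 : ff a (a * z.1 + z.2 + ((a : ℝ) - b) * u) ≤ ff a (a * z.1 + z.2) + Δ a r z := h3
          unfold F
          nlinarith
      _ = F a b z * (∫ u in Set.Ioc 0 h, ff c (c * z.1 + z.2 + ((c : ℝ) - b) * u)) + h * Δ a r z := by
          rw [integral_add (hic.const_mul _) (integrableOn_const (by simp)), integral_const_mul,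
            setIntegral_const, smul_eq_mul, Real.volume_real_Ioc_of_le hh.le, sub_zero]
      _ ≤ F a b z * (K * h) + h * Δ a r z := by
          have := mul_le_mul_of_nonneg_left (havg z hz) (F_nonneg a b z)
          linarith
      _ = _ := by ring
  rw [integral_add (hF.const_mul _) (hD.const_mul _), integral_const_mul, integral_const_mul] at h2
  have h3 := h1.trans h2
  have e : K * h * (∫ z in B, F a b z) + h * ∫ z in B, Δ a r z =
      h * (K * (∫ z in B, F a b z) + ∫ z in B, Δ a r z) := by ring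
  rw [e] at h3
  exact le_of_mul_le_mul_left h3 hh

end Pool.Agent.Run7.h129.Two
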