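import Mathlib
import Pool.Agent.Run7.h129.Two.Triple

set_option autoImplicit false

/-!
# The bound for triples of levels
-/

namespace Pool.Agent.Run7.h129.Two

open Finset Filter Topology MeasureTheory
open Pool.Agent.H305R2 (ff NN ff_nonneg ff_le_one measurable_ff measurable_NN integrableOn_ff
  roughPart)
open Pool.Agent.Y122.PC (Bx F F_nonneg F_le_one measurable_F integrable_of_bdd shift_le w w_nonneg)

lemma lin_exp_small (C b e : ℝ) (hb : 0 < b) (he : 0 < e) :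
    ∀ᶠ c : ℕ in atTop, C * ((c : ℝ) * Real.exp (-(b * c))) ≤ e := by
  have hcast := tendsto_natCast_atTop_atTop (R := ℝ)
  have h1 := (Real.tendsto_pow_mul_exp_neg_atTop_nhds_zero 1).comp (hcast.const_mul_atTop hb)
  have h2 := h1.const_mul (C / b)
  rw [mul_zero] at h2
  filter_upwards [h2.eventually_lt_const he] with p hp
  refine le_trans (le_of_eq ?_) hp.le
  simp only [Function.comp]
  field_simp

theorem triple_bound : ∃ K0 : ℝ, 0 < K0 ∧ ∀ X0 s x0 x1 y0 y1 R ρ : ℝ, 0 < X0 → X0 ≤ x0 → x0 ≤ x1 →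
    y0 ≤ y1 → 0 < s → s < 1 → (1 - s) * x1 ≤ (1 - s / 2) * x0 → 0 ≤ R → 0 < ρ →
    ∀ᶠ c : ℕ in atTop, ∀ a b : ℕ, (a : ℝ) ≤ (1 - s) * c → (b : ℝ) ≤ R * c → b ≠ c →
    ∀ S : Set (ℝ × ℝ), MeasurableSet S → volume S ≠ ⊤ →
      (∀ z ∈ S, ∀ v : ℝ × ℝ, |v.1| ≤ ρ → |v.2| ≤ ρ → z - v ∈ Bx x0 x1 y0 y1) →
      ∫ z in S, F3 a b c z ≤ K0 * (4 / (s * X0) + 1) * w c * (∫ z in Bx x0 x1 y0 y1, F a b z) +
        Real.exp (-(s * X0 / 16 * c)) := by
  obtain ⟨K0, hK0, hwin⟩ := window_vshort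
  refine ⟨K0, hK0, ?_⟩
  intro X0 s x0 x1 y0 y1 R ρ hX0 hXx hx hy hs hs1 hsx hR hρ
  have hκ : 0 < s * X0 / 4 := by positivity
  have hx0 : 0 < x0 := hX0.trans_le hXx
  set Y := |y0| + |y1| with hY
  have hY0 : 0 ≤ Y := by positivity
  have hyl : -Y ≤ y0 := by
    have := neg_abs_le y0; have := abs_nonneg y1; linarith
  have hyu : y1 ≤ Y := by
    have := le_abs_self y1; have := abs_nonneg y0; linarith
  have hcast := tendsto_natCast_atTop_atTop (R := ℝ)
  filter_upwards [hwin _ hκ, (hcast.const_mul_atTop (show 0 < s / 8 * X0 by positivity)).eventually_ge_atTop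
      (2 * Y + 1), lin_exp_small (1 + R) (X0 / 2) (min 1 ρ) (by positivity) (lt_min one_pos hρ),
    lin_exp_small (2 * (x1 - x0) * (1 + R) * Real.exp 1) (s * X0 / 16) 1 (by positivity) one_pos,
    eventually_ge_atTop 1] with c hc1 hc2 hc3 hc4 hc5 a b ha hb hbc S hS hfin hmem
  have hc5' : (1 : ℝ) ≤ c := by exact_mod_cast hc5
  have hc0 : (0 : ℝ) < c := by linarith
  have hXc : X0 * c ≤ x0 * c := mul_le_mul_of_nonneg_right hXx hc0.le
  have hXc0 : 0 < X0 * c := by positivity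
  have hsXc : s * (X0 * c) ≤ s * (x0 * c) := mul_le_mul_of_nonneg_left hXc hs.le
  have hs2 : s * (x0 * c) ≤ 1 * (x0 * c) := mul_le_mul_of_nonneg_right hs1.le (by positivity)
  have hs3 : s * (X0 * c) ≤ 1 * (X0 * c) := mul_le_mul_of_nonneg_right hs1.le hXc0.le
  have hc2' : 2 * Y + 1 ≤ s * (X0 * c) / 8 := by
    calc 2 * Y + 1 ≤ s / 8 * X0 * c := hc2
      _ = _ := by ring
  set h := Real.exp (-((1 - 3 * s / 8) * x0 * c + Y)) with hh
  have hh0 : 0 < h := Real.exp_pos _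
  have hhle : h ≤ Real.exp (-(X0 / 2 * c)) := by
    rw [hh, Real.exp_le_exp]
    have : (1 - 3 * s / 8) * x0 * c = x0 * c - 3 / 8 * (s * (x0 * c)) := by ring
    rw [this]
    linarith
  have hRc : 0 ≤ (1 + R) * c := by positivity
  have hr1 : (1 + R) * c * h ≤ min 1 ρ := by
    calc (1 + R) * c * h ≤ (1 + R) * c * Real.exp (-(X0 / 2 * c)) :=
          mul_le_mul_of_nonneg_left hhle hRc
      _ = (1 + R) * (c * Real.exp (-(X0 / 2 * c))) := by ring
      _ ≤ _ := hc3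
  have hrl : (1 + R) * c * h ≤ 1 := hr1.trans (min_le_left _ _)
  have hrρ : (1 + R) * c * h ≤ ρ := hr1.trans (min_le_right _ _)
  have hac : (a : ℝ) ≤ c := by
    have : (1 - s) * (c : ℝ) ≤ 1 * c := mul_le_mul_of_nonneg_right (by linarith) hc0.le
    linarith
  have ha0 : (0 : ℝ) ≤ a := Nat.cast_nonneg _
  have hb0 : (0 : ℝ) ≤ b := Nat.cast_nonneg _
  have hRc0 : 0 ≤ R * c := by positivity
  -- the second level is fixed
  have hab : |(a : ℝ) - b| * h ≤ (1 + R) * c * h := by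
    refine mul_le_mul_of_nonneg_right ?_ hh0.le
    rw [abs_le]
    constructor <;> linarith
  have hcb : |(c : ℝ) - b| * h ≤ 1 := by
    refine le_trans (mul_le_mul_of_nonneg_right ?_ hh0.le) hrl
    rw [abs_le]
    constructor <;> linarith
  have hcb1 : 1 ≤ |(c : ℝ) - b| := by
    have h1 : ((c : ℤ) - b) ≠ 0 := by
      intro h
      have : (c : ℤ) = b := by linarith
      exact hbc (by exact_mod_cast this.symm)
    have h2 := Int.one_le_abs h1
    exact_mod_cast h2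
  have hmem' : ∀ z ∈ S, ∀ u ∈ Set.Ioc 0 h, z - vs b u ∈ Bx x0 x1 y0 y1 := by
    intro z hz u hu
    have hu1 : 1 * h ≤ (1 + R) * c * h := mul_le_mul_of_nonneg_right (by nlinarith) hh0.le
    have hu2 : (b : ℝ) * h ≤ (1 + R) * c * h :=
      mul_le_mul_of_nonneg_right (by linarith) hh0.le
    have hu3 : (b : ℝ) * u ≤ b * h := mul_le_mul_of_nonneg_left hu.2 hb0
    have hu4 : 0 ≤ (b : ℝ) * u := mul_nonneg hb0 hu.1.le
    refine hmem z hz _ ?_ ?_
    · change |u| ≤ ρ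
      rw [abs_of_pos hu.1]
      linarith [hu.2]
    · change |-((b : ℝ) * u)| ≤ ρ
      rw [abs_neg, abs_of_nonneg hu4]
      linarith
  have havg : ∀ z ∈ Bx x0 x1 y0 y1, ∫ u in Set.Ioc 0 h, ff c (c * z.1 + z.2 + ((c : ℝ) - b) * u) ≤
      (K0 * (4 / (s * X0) + 1) * w c) * h := by
    intro z hz
    obtain ⟨⟨hz1, _⟩, hz2, _⟩ := hz
    have hz3 : (c : ℝ) * x0 ≤ c * z.1 := mul_le_mul_of_nonneg_left hz1.le hc0.le
    refine dir_avg (Y0 := c * x0 - Y - 1) hcb1 hh0 le_rfl hcb (by linarith) ?_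
    intro y hy' l hl hl1
    have e1 : s * X0 / 4 * (c : ℝ) = s * (X0 * c) / 4 := by ring
    have h1 := hc1 y (by rw [e1]; linarith) l (by
      refine le_trans ?_ hl
      rw [hh, Real.exp_le_exp]
      have : (1 - 3 * s / 8) * x0 * c = x0 * c - 3 / 8 * (s * (x0 * c)) := by ring
      rw [this, e1]
      linarith) hl1
    refine h1.trans (le_of_eq ?_)
    unfold w
    have : 1 / (s * X0 / 4) = 4 / (s * X0) := by field_simp
    rw [this]
    ring
  have h3 := shift3 hh0 hab hS hfin hmem' havg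
  refine h3.trans (add_le_add le_rfl ?_)
  refine (bdry_box a hx hy (by positivity)).trans ?_
  -- the boundary term
  have hax : (a : ℝ) * x1 ≤ (1 - s / 2) * x0 * c := by
    calc (a : ℝ) * x1 ≤ (1 - s) * c * x1 := mul_le_mul_of_nonneg_right ha (by linarith)
      _ = (1 - s) * x1 * c := by ring
      _ ≤ _ := mul_le_mul_of_nonneg_right hsx hc0.le
  have hexp : h * Real.exp (a * x1 + y1 + (1 + R) * c * h) ≤
      Real.exp 1 * (Real.exp (-(s * X0 / 16 * c)) * Real.exp (-(s * X0 / 16 * c))) := by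
    rw [hh, ← Real.exp_add, ← Real.exp_add, ← Real.exp_add, Real.exp_le_exp, ← hh]
    have e1 : (1 - 3 * s / 8) * x0 * c = x0 * c - 3 / 8 * (s * (x0 * c)) := by ring
    have e2 : (1 - s / 2) * x0 * c = x0 * c - s * (x0 * c) / 2 := by ring
    have e3 : s * X0 / 16 * (c : ℝ) = s * (X0 * c) / 16 := by ring
    rw [e1, e3]
    rw [e2] at hax
    linarith
  have hx10 : 0 ≤ x1 - x0 := by linarith
  calc (x1 - x0) * (2 * ((1 + R) * c * h) * Real.exp (a * x1 + y1 + (1 + R) * c * h)) =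
      2 * (x1 - x0) * (1 + R) * c * (h * Real.exp (a * x1 + y1 + (1 + R) * c * h)) := by ring
    _ ≤ 2 * (x1 - x0) * (1 + R) * c *
        (Real.exp 1 * (Real.exp (-(s * X0 / 16 * c)) * Real.exp (-(s * X0 / 16 * c)))) :=
        mul_le_mul_of_nonneg_left hexp (by positivity)
    _ = (2 * (x1 - x0) * (1 + R) * Real.exp 1 * (c * Real.exp (-(s * X0 / 16 * c)))) *
        Real.exp (-(s * X0 / 16 * c)) := by ring
    _ ≤ 1 * Real.exp (-(s * X0 / 16 * c)) :=
        mul_le_mul_of_nonneg_right hc4 (Real.exp_pos _).le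
    _ = _ := one_mul _

end Pool.Agent.Run7.h129.Two
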