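import Mathlib
import Pool.Agent.Run7.h129.Two.Bound

set_option autoImplicit false

/-!
# Two windows with exponents
-/

namespace Pool.Agent.Run7.h129.Two

open Finset Filter Topology MeasureTheory
open Pool.Agent.H305R2 (ff NN ff_nonneg ff_le_one measurable_ff measurable_NN integrableOn_ff
  roughPart)
open Pool.Agent.Y122.PC (Bx F F_nonneg F_le_one measurable_F integrable_of_bdd shift_le w w_nonneg
  Pr mem_Pr I I_nonneg T mertens sum_pairs)

/-- the number of the exponents in a finite set of primes -/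
noncomputable def ct (A : Finset ℕ) (v : ℝ × ℝ) : ℝ := ∑ p ∈ A, ff p (p * v.1 + v.2)

/-- the same as a natural number -/
noncomputable def cn (A : Finset ℕ) (v : ℝ × ℝ) : ℕ :=
  (A.filter (fun p => (roughPart p (NN (p * v.1 + v.2))).Prime)).card

lemma ct_eq (A : Finset ℕ) (v : ℝ × ℝ) : ct A v = cn A v := by
  unfold ct cn ff
  rw [Finset.card_filter]
  push_cast
  rfl

lemma measurable_ct (A : Finset ℕ) : Measurable (ct A) :=
  Finset.measurable_sum _ fun p _ => (measurable_ff p).comp (by fun_prop)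

lemma ct_nonneg (A : Finset ℕ) (v : ℝ × ℝ) : 0 ≤ ct A v :=
  Finset.sum_nonneg fun _ _ => ff_nonneg _ _

/-- the points for which both windows contain exponents and there are at most `M` in between -/
def Ev (P Q V : Finset ℕ) (M : ℕ) : Set (ℝ × ℝ) := {v | 1 ≤ cn P v ∧ 1 ≤ cn Q v ∧ cn V v ≤ M}

lemma measurableSet_Ev (P Q V : Finset ℕ) (M : ℕ) : MeasurableSet (Ev P Q V M) := by
  have h : Ev P Q V M = {v | 1 ≤ ct P v} ∩ ({v | 1 ≤ ct Q v} ∩ {v | ct V v ≤ M}) := by
    ext v
    simp only [Ev, Set.mem_ofPred_eq, Set.mem_inter_iff, ct_eq, Nat.one_le_cast, Nat.cast_le]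
  rw [h]
  exact (measurableSet_le measurable_const (measurable_ct P)).inter
    ((measurableSet_le measurable_const (measurable_ct Q)).inter
      (measurableSet_le (measurable_ct V) measurable_const))

/-- the sum over the triples -/
noncomputable def T3 (P Q V : Finset ℕ) (v : ℝ × ℝ) : ℝ :=
  ∑ a ∈ P, ∑ c ∈ Q, ∑ b ∈ V, if b ≠ a ∧ b ≠ c then F3 a b c v else 0

lemma ff_sq (p : ℕ) (t : ℝ) : ff p t * ff p t = ff p t := by unfold ff; split_ifs <;> norm_num

lemma T3_eq {P Q V : Finset ℕ} (hP : P ⊆ V) (hQ : Q ⊆ V) (hPQ : Disjoint P Q) (v : ℝ × ℝ) :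
    T3 P Q V v = ct P v * ct Q v * (ct V v - 2) := by
  unfold T3 ct
  rw [Finset.sum_mul_sum, Finset.sum_mul]
  refine Finset.sum_congr rfl fun a ha => ?_
  rw [Finset.sum_mul]
  refine Finset.sum_congr rfl fun c hc => ?_
  have hac : a ≠ c := fun h => Finset.disjoint_left.1 hPQ ha (h ▸ hc)
  have haV := hP ha
  have hcV : c ∈ V.erase a := Finset.mem_erase.2 ⟨hac.symm, hQ hc⟩
  have h1 := Finset.add_sum_erase V (fun p => ff p (p * v.1 + v.2)) haV
  have h2 := Finset.add_sum_erase (V.erase a) (fun p => ff p (p * v.1 + v.2)) hcV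
  have h3 : ∑ b ∈ V, (if b ≠ a ∧ b ≠ c then F3 a b c v else 0) =
      ff a (a * v.1 + v.2) * ff c (c * v.1 + v.2) *
        ∑ b ∈ (V.erase a).erase c, ff b (b * v.1 + v.2) := by
    rw [← Finset.sum_filter, Finset.mul_sum]
    have e : V.filter (fun b => b ≠ a ∧ b ≠ c) = (V.erase a).erase c := by
      ext b
      simp only [Finset.mem_filter, Finset.mem_erase]
      tauto
    rw [e]
    refine Finset.sum_congr rfl fun b _ => ?_
    unfold F3
    ring
  rw [h3, ← h1, ← h2]
  have s1 := ff_sq a (a * v.1 + v.2)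
  have s2 := ff_sq c (c * v.1 + v.2)
  linear_combination (-(ff c (c * v.1 + v.2))) * s1 - ff a (a * v.1 + v.2) * s2

lemma cn_add_le {P Q V : Finset ℕ} (hP : P ⊆ V) (hQ : Q ⊆ V) (hPQ : Disjoint P Q) (v : ℝ × ℝ) :
    cn P v + cn Q v ≤ cn V v := by
  unfold cn
  rw [← Finset.card_union_of_disjoint (Finset.disjoint_filter_filter hPQ)]
  refine Finset.card_le_card ?_
  rw [← Finset.filter_union]
  exact Finset.filter_subset_filter _ (Finset.union_subset hP hQ)

lemma pointwise {P Q V : Finset ℕ} (hP : P ⊆ V) (hQ : Q ⊆ V) (hPQ : Disjoint P Q) {M : ℕ}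
    (hM : 2 ≤ M) (v : ℝ × ℝ) :
    ct P v * ct Q v ≤ (M : ℝ) ^ 2 * (Ev P Q V M).indicator (fun _ => (1 : ℝ)) v +
      1 / ((M : ℝ) - 1) * T3 P Q V v := by
  have hM' : (2 : ℝ) ≤ M := by exact_mod_cast hM
  have hM1 : (0 : ℝ) < (M : ℝ) - 1 := by linarith
  have hT0 : 0 ≤ T3 P Q V v := by
    unfold T3
    refine Finset.sum_nonneg fun a _ => Finset.sum_nonneg fun c _ => Finset.sum_nonneg fun b _ => ?_
    split_ifs
    · exact F3_nonneg _ _ _ _
    · exact le_rfl
  have hI0 : 0 ≤ (Ev P Q V M).indicator (fun _ => (1 : ℝ)) v :=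
    Set.indicator_nonneg (fun _ _ => zero_le_one) v
  have hR : 0 ≤ 1 / ((M : ℝ) - 1) * T3 P Q V v := by positivity
  by_cases h1 : 1 ≤ cn P v
  · by_cases h2 : 1 ≤ cn Q v
    · have h3 := cn_add_le hP hQ hPQ v
      by_cases h4 : cn V v ≤ M
      · have hv : v ∈ Ev P Q V M := ⟨h1, h2, h4⟩
        rw [Set.indicator_of_mem hv, ct_eq, ct_eq, mul_one]
        have h5 : cn P v ≤ M := by omega
        have h6 : cn Q v ≤ M := by omega
        have h7 : ((cn P v : ℕ) : ℝ) * (cn Q v : ℕ) ≤ (M : ℝ) ^ 2 := by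
          rw [sq]
          exact mul_le_mul (by exact_mod_cast h5) (by exact_mod_cast h6) (by positivity)
            (by positivity)
        linarith
      · have h5 : (M : ℝ) + 1 ≤ ct V v := by
          rw [ct_eq]
          have : M + 1 ≤ cn V v := by omega
          exact_mod_cast this
        rw [T3_eq hP hQ hPQ]
        have h6 : 0 ≤ ct P v * ct Q v := mul_nonneg (ct_nonneg _ _) (ct_nonneg _ _)
        have h7 : ct P v * ct Q v ≤ 1 / ((M : ℝ) - 1) * (ct P v * ct Q v * (ct V v - 2)) := by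
          rw [div_mul_eq_mul_div, one_mul, le_div_iff₀ hM1]
          exact mul_le_mul_of_nonneg_left (by linarith) h6
        have h8 : 0 ≤ (M : ℝ) ^ 2 * (Ev P Q V M).indicator (fun _ => (1 : ℝ)) v := by positivity
        linarith
    · have h3 : ct Q v = 0 := by
        rw [ct_eq]; exact_mod_cast (show cn Q v = 0 by omega)
      rw [h3, mul_zero]
      positivity
  · have h3 : ct P v = 0 := by
      rw [ct_eq]; exact_mod_cast (show cn P v = 0 by omega)
    rw [h3, zero_mul]
    positivity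

lemma measurable_T3 (P Q V : Finset ℕ) : Measurable (T3 P Q V) := by
  refine Finset.measurable_sum _ fun a _ => Finset.measurable_sum _ fun c _ =>
    Finset.measurable_sum _ fun b _ => ?_
  by_cases h : b ≠ a ∧ b ≠ c
  · simp only [if_pos h]; exact measurable_F3 _ _ _
  · simp only [if_neg h]; exact measurable_const

/-- the integrated inequality -/
lemma integrated {P Q V : Finset ℕ} (hP : P ⊆ V) (hQ : Q ⊆ V) (hPQ : Disjoint P Q) {M : ℕ}
    (hM : 2 ≤ M) (x0 x1 y0 y1 : ℝ) :
    ∑ a ∈ P, ∑ c ∈ Q, I x0 x1 y0 y1 a c ≤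
      (M : ℝ) ^ 2 * volume.real (Ev P Q V M ∩ Bx x0 x1 y0 y1) +
      1 / ((M : ℝ) - 1) * ∑ a ∈ P, ∑ c ∈ Q, ∑ b ∈ V,
        if b ≠ a ∧ b ≠ c then ∫ z in Bx x0 x1 y0 y1, F3 a b c z else 0 := by
  set B := Bx x0 x1 y0 y1 with hB
  have iF : ∀ a c, IntegrableOn (F a c) B volume := fun a c =>
    integrable_of_bdd (measurable_F a c) (F_nonneg a c) (F_le_one a c)
  have iF3 : ∀ a b c, IntegrableOn (F3 a b c) B volume := fun a b c =>
    integrable_of_bdd (measurable_F3 a b c) (F3_nonneg a b c) (F3_le_one a b c)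
  have iI : IntegrableOn ((Ev P Q V M).indicator (fun _ => (1 : ℝ))) B volume :=
    (integrableOn_const (vol_Bx_ne_top _ _ _ _)).indicator (measurableSet_Ev P Q V M)
  have i3 : ∀ a b c, IntegrableOn (fun v => if b ≠ a ∧ b ≠ c then F3 a b c v else 0) B volume := by
    intro a b c
    by_cases h : b ≠ a ∧ b ≠ c
    · simp only [if_pos h]; exact iF3 _ _ _
    · simp only [if_neg h]; exact integrable_zero _ _ _
  have iT : IntegrableOn (T3 P Q V) B volume := by
    unfold T3
    exact integrable_finsetSum _ fun a _ => integrable_finsetSum _ fun c _ =>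
      integrable_finsetSum _ fun b _ => i3 a b c
  have e1 : ∑ a ∈ P, ∑ c ∈ Q, I x0 x1 y0 y1 a c = ∫ v in B, ct P v * ct Q v := by
    have : ∀ v, ct P v * ct Q v = ∑ a ∈ P, ∑ c ∈ Q, F a c v := by
      intro v
      unfold ct F
      rw [Finset.sum_mul_sum]
    simp only [this]
    rw [integral_finsetSum _ fun a _ => integrable_finsetSum _ fun c _ => iF a c]
    refine Finset.sum_congr rfl fun a _ => ?_
    rw [integral_finsetSum _ fun c _ => iF a c]
    rfl
  have e2 : ∫ v in B, T3 P Q V v = ∑ a ∈ P, ∑ c ∈ Q, ∑ b ∈ V,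
        if b ≠ a ∧ b ≠ c then ∫ z in B, F3 a b c z else 0 := by
    unfold T3
    rw [integral_finsetSum _ fun a _ => integrable_finsetSum _ fun c _ =>
      integrable_finsetSum _ fun b _ => i3 a b c]
    refine Finset.sum_congr rfl fun a _ => ?_
    rw [integral_finsetSum _ fun c _ => integrable_finsetSum _ fun b _ => i3 a b c]
    refine Finset.sum_congr rfl fun c _ => ?_
    rw [integral_finsetSum _ fun b _ => i3 a b c]
    refine Finset.sum_congr rfl fun b _ => ?_
    split_ifs
    · rfl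
    · simp
  have iPQ : IntegrableOn (fun v => ct P v * ct Q v) B volume := by
    have : (fun v => ct P v * ct Q v) = fun v => ∑ a ∈ P, ∑ c ∈ Q, F a c v := by
      funext v
      unfold ct F
      rw [Finset.sum_mul_sum]
    rw [this]
    exact integrable_finsetSum _ fun a _ => integrable_finsetSum _ fun c _ => iF a c
  rw [e1, ← e2]
  have h := setIntegral_mono_on iPQ ((iI.const_mul ((M : ℝ) ^ 2)).add (iT.const_mul (1 / ((M : ℝ) - 1))))
    (measurableSet_Bx x0 x1 y0 y1) (fun v _ => pointwise hP hQ hPQ hM v)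
  refine h.trans (le_of_eq ?_)
  have h2 : ∫ v in B, (Ev P Q V M).indicator (fun _ => (1 : ℝ)) v =
      volume.real (Ev P Q V M ∩ B) := by
    rw [integral_indicator (measurableSet_Ev P Q V M), setIntegral_const, smul_eq_mul, mul_one,
      Measure.real, Measure.restrict_apply (measurableSet_Ev P Q V M), Measure.real]
  simp only [Pi.add_apply]
  rw [integral_add (iI.const_mul _) (iT.const_mul _), integral_const_mul, integral_const_mul, h2]

end Pool.Agent.Run7.h129.Two
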