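import Mathlib
import Pool.Agent.Run7.h129.Two.Event

set_option autoImplicit false

/-!
# The lower bound for the measure of the event in a box
-/

namespace Pool.Agent.Run7.h129.Two

open Finset Filter Topology MeasureTheory
open Pool.Agent.H305R2 (ff NN ff_nonneg ff_le_one measurable_ff measurable_NN integrableOn_ff
  roughPart)
open Pool.Agent.Y122.PC (Bx F F_nonneg F_le_one measurable_F integrable_of_bdd shift_le w w_nonneg
  Pr mem_Pr I I_nonneg T mertens sum_pairs eg eg_pos)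

lemma T_pos {x0 x1 y0 y1 : ℝ} (hx0 : 0 < x0) (hx : x0 < x1) (hy : y0 < y1) : 0 < T x0 x1 y0 y1 := by
  unfold T
  have h1 : 0 < 1 / x0 - 1 / x1 := sub_pos.2 (one_div_lt_one_div_of_lt hx0 hx)
  have h2 : 0 < y1 - y0 := by linarith
  have := eg_pos
  positivity

lemma card_Pr (u v : ℝ) (hv : 0 ≤ v) : ((Pr u v).card : ℝ) ≤ v := by
  unfold Pr
  calc (((Finset.Ioc ⌊u⌋₊ ⌊v⌋₊).filter Nat.Prime).card : ℝ) ≤ ((Finset.Ioc ⌊u⌋₊ ⌊v⌋₊).card : ℝ) := by
        exact_mod_cast Finset.card_filter_le _ _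
    _ ≤ (⌊v⌋₊ : ℝ) := by
        rw [Nat.card_Ioc]
        exact_mod_cast Nat.sub_le _ _
    _ ≤ v := Nat.floor_le hv

theorem event_lower : ∃ K0 : ℝ, 0 < K0 ∧ ∀ X0 s x0 x1 y0 y1 u0 u1 v0 v1 ρ : ℝ, 0 < X0 → X0 ≤ x0 →
    y0 < y1 → 0 < s → s < 1 → (1 - s) * x1 ≤ (1 - s / 2) * x0 → 0 < ρ →
    x0 + ρ ≤ u0 → u0 < u1 → u1 + ρ ≤ x1 → y0 + ρ ≤ v0 → v0 < v1 → v1 + ρ ≤ y1 →
    ∀ a1 b1 c1 d1 : ℝ, 0 < a1 → a1 < b1 → b1 = (1 - s) * c1 → c1 < d1 → ∀ M : ℕ, 2 ≤ M →
    32 * (K0 * (4 / (s * X0) + 1)) * Real.log (d1 / a1) * T x0 x1 y0 y1 ≤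
      ((M : ℝ) - 1) * T u0 u1 v0 v1 →
    ∀ᶠ z : ℝ in atTop, T u0 u1 v0 v1 * (Real.log (b1 / a1) * Real.log (d1 / c1)) / 4 ≤
      (M : ℝ) ^ 2 * volume.real (Ev (Pr (a1 * z) (b1 * z)) (Pr (c1 * z) (d1 * z))
        (Pr (a1 * z) (d1 * z)) M ∩ Bx u0 u1 v0 v1) := by
  obtain ⟨K0, hK0, htri⟩ := triple_bound
  refine ⟨K0, hK0, ?_⟩
  intro X0 s x0 x1 y0 y1 u0 u1 v0 v1 ρ hX0 hXx hy hs hs1 hsx hρ hu0 hu hu1 hv0 hv hv1 a1 b1 c1 d1
    ha hab hbc hcd M hM hMK
  have hx0 : 0 < x0 := hX0.trans_le hXx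
  have hx : x0 < x1 := by linarith
  have hb : 0 < b1 := ha.trans hab
  have hc : 0 < c1 := by
    by_contra h
    have : (1 - s) * c1 ≤ 0 := mul_nonpos_of_nonneg_of_nonpos (by linarith) (not_lt.1 h)
    linarith
  have hbc' : b1 < c1 := by
    rw [hbc]
    nlinarith
  have hd : 0 < d1 := hc.trans hcd
  have had : a1 < d1 := by linarith
  set l1 := Real.log (b1 / a1) with hl1
  set l2 := Real.log (d1 / c1) with hl2
  set l3 := Real.log (d1 / a1) with hl3
  have hl1' : 0 < l1 := Real.log_pos ((one_lt_div ha).2 hab)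
  have hl2' : 0 < l2 := Real.log_pos ((one_lt_div hc).2 hcd)
  have hl3' : 0 < l3 := Real.log_pos ((one_lt_div ha).2 had)
  set TB := T x0 x1 y0 y1 with hTB
  set TS := T u0 u1 v0 v1 with hTS
  have hTB0 : 0 < TB := T_pos hx0 hx hy
  have hTS0 : 0 < TS := T_pos (by linarith) hu hv
  set K := K0 * (4 / (s * X0) + 1) with hK
  have hKpos : 0 < K := by positivity
  have m1 := mertens hc hcd
  rw [← hl2] at m1
  have m2 := sum_pairs hx0 hx hy ha hab ha had
  rw [← hl1, ← hl3, ← hTB] at m2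
  have m3 := sum_pairs (show 0 < u0 by linarith) hu hv ha hab hc hcd
  rw [← hl1, ← hl2, ← hTS] at m3
  obtain ⟨C0, hC0⟩ := eventually_atTop.1
    (htri X0 s x0 x1 y0 y1 (d1 / c1) ρ hX0 hXx hx.le hy.le hs hs1 hsx (by positivity) hρ)
  have hcz : Tendsto (fun z : ℝ => c1 * z) atTop atTop := tendsto_id.const_mul_atTop hc
  -- the error term
  set κ := s * X0 / 16 with hκ
  have hκ0 : 0 < κ := by positivity
  set e0 := 4 * K * l2 * TB * (l1 * l3) with he0
  have he0pos : 0 < e0 := by positivity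
  have herr : ∀ᶠ z : ℝ in atTop, (d1 * z) ^ 3 * Real.exp (-(κ * (c1 * z))) ≤ e0 := by
    have h1 := (Real.tendsto_pow_mul_exp_neg_atTop_nhds_zero 3).comp
      (hcz.const_mul_atTop hκ0)
    have h2 := h1.const_mul ((d1 / (κ * c1)) ^ 3)
    rw [mul_zero] at h2
    filter_upwards [h2.eventually_lt_const he0pos] with z hz
    refine le_trans (le_of_eq ?_) hz.le
    simp only [Function.comp]
    field_simp
  filter_upwards [m1.eventually_lt_const (show l2 < 2 * l2 by linarith),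
    m2.eventually_lt_const (show TB * (l1 * l3) < 2 * (TB * (l1 * l3)) by
      have : 0 < TB * (l1 * l3) := by positivity
      linarith),
    m3.eventually_const_lt (show TS * (l1 * l2) / 2 < TS * (l1 * l2) by
      have : 0 < TS * (l1 * l2) := by positivity
      linarith),
    hcz.eventually_gt_atTop (C0 : ℝ), herr, eventually_gt_atTop 0] with z g1 g2 g3 g4 g5 g6
  have haz : 0 ≤ a1 * z := by positivity
  have hbz : 0 ≤ b1 * z := by positivity
  have hcz0 : 0 ≤ c1 * z := by positivity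
  have hdz : 0 ≤ d1 * z := by positivity
  set P := Pr (a1 * z) (b1 * z) with hP
  set Q := Pr (c1 * z) (d1 * z) with hQ
  set V := Pr (a1 * z) (d1 * z) with hV
  have hbdz : b1 * z ≤ d1 * z := mul_le_mul_of_nonneg_right (by linarith) g6.le
  have hacz : a1 * z ≤ c1 * z := mul_le_mul_of_nonneg_right (by linarith) g6.le
  have hbcz : b1 * z ≤ c1 * z := mul_le_mul_of_nonneg_right (by linarith) g6.le
  have hPV : P ⊆ V := by
    intro p hp
    rw [hP, mem_Pr haz hbz] at hp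
    rw [hV, mem_Pr haz hdz]
    exact ⟨hp.1, hp.2.1, hp.2.2.trans hbdz⟩
  have hQV : Q ⊆ V := by
    intro p hp
    rw [hQ, mem_Pr hcz0 hdz] at hp
    rw [hV, mem_Pr haz hdz]
    exact ⟨hp.1, hacz.trans_lt hp.2.1, hp.2.2⟩
  have hPQ : Disjoint P Q := by
    rw [Finset.disjoint_left]
    intro p hp hq
    rw [hP, mem_Pr haz hbz] at hp
    rw [hQ, mem_Pr hcz0 hdz] at hq
    linarith [hp.2.2, hq.2.1]
  have hmain := integrated hPV hQV hPQ hM u0 u1 v0 v1
  -- the sum over the triples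
  have hterm : ∀ a ∈ P, ∀ c ∈ Q, ∀ b ∈ V,
      (if b ≠ a ∧ b ≠ c then ∫ r in Bx u0 u1 v0 v1, F3 a b c r else 0) ≤
      K * (w c * (if a ≠ b then I x0 x1 y0 y1 a b else 0)) + Real.exp (-(κ * (c1 * z))) := by
    intro a ha' c hc' b hb'
    rw [hP, mem_Pr haz hbz] at ha'
    rw [hQ, mem_Pr hcz0 hdz] at hc'
    rw [hV, mem_Pr haz hdz] at hb'
    have hw := w_nonneg c
    have hI : 0 ≤ (if a ≠ b then I x0 x1 y0 y1 a b else 0) := by
      split_ifs
      · exact I_nonneg _ _ _ _ _ _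
      · exact le_rfl
    have hE := Real.exp_pos (-(κ * (c1 * z)))
    by_cases h : b ≠ a ∧ b ≠ c
    · rw [if_pos h, if_pos h.1.symm]
      have hcC : C0 ≤ c := by
        have : (C0 : ℝ) < c := g4.trans hc'.2.1
        exact_mod_cast this.le
      have h1 := hC0 c hcC a b (by
        have h2 : b1 * z = (1 - s) * (c1 * z) := by rw [hbc]; ring
        have h3 : (1 - s) * (c1 * z) ≤ (1 - s) * c :=
          mul_le_mul_of_nonneg_left hc'.2.1.le (by linarith)
        linarith [ha'.2.2]) (by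
        have h2 : d1 * z = d1 / c1 * (c1 * z) := by field_simp
        have h3 : d1 / c1 * (c1 * z) ≤ d1 / c1 * c :=
          mul_le_mul_of_nonneg_left hc'.2.1.le (by positivity)
        linarith [hb'.2.2]) h.2 (Bx u0 u1 v0 v1) (measurableSet_Bx _ _ _ _) (vol_Bx_ne_top _ _ _ _) (by
        rintro ⟨p, q⟩ ⟨⟨h1, h2⟩, h3, h4⟩ ⟨v, v'⟩ h5 h6
        simp only at h1 h2 h3 h4 h5 h6
        obtain ⟨h5a, h5b⟩ := abs_le.1 h5
        obtain ⟨h6a, h6b⟩ := abs_le.1 h6
        refine ⟨⟨?_, ?_⟩, ?_, ?_⟩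
        · change x0 < p - v
          linarith
        · change p - v ≤ x1
          linarith
        · change y0 < q - v'
          linarith
        · change q - v' ≤ y1
          linarith)
      refine h1.trans (add_le_add (le_of_eq ?_) ?_)
      · unfold I
        ring
      · rw [Real.exp_le_exp, neg_le_neg_iff]
        exact mul_le_mul_of_nonneg_left hc'.2.1.le hκ0.le
    · rw [if_neg h]
      positivity
  have hsum : ∑ a ∈ P, ∑ c ∈ Q, ∑ b ∈ V,
        (if b ≠ a ∧ b ≠ c then ∫ z in Bx u0 u1 v0 v1, F3 a b c z else 0) ≤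
      K * ((∑ c ∈ Q, w c) * ∑ a ∈ P, ∑ b ∈ V, if a ≠ b then I x0 x1 y0 y1 a b else 0) +
        (d1 * z) ^ 3 * Real.exp (-(κ * (c1 * z))) := by
    calc _ ≤ ∑ a ∈ P, ∑ c ∈ Q, ∑ b ∈ V,
        (K * (w c * (if a ≠ b then I x0 x1 y0 y1 a b else 0)) + Real.exp (-(κ * (c1 * z)))) :=
          Finset.sum_le_sum fun a ha' => Finset.sum_le_sum fun c hc' => Finset.sum_le_sum fun b hb' =>
            hterm a ha' c hc' b hb'
      _ = K * ((∑ c ∈ Q, w c) * ∑ a ∈ P, ∑ b ∈ V, if a ≠ b then I x0 x1 y0 y1 a b else 0) +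
          (P.card * (Q.card * (V.card * Real.exp (-(κ * (c1 * z)))))) := by
          simp only [Finset.sum_add_distrib, Finset.sum_const, nsmul_eq_mul]
          congr 1
          rw [Finset.sum_mul_sum, Finset.sum_comm, Finset.mul_sum]
          refine Finset.sum_congr rfl fun c _ => ?_
          rw [Finset.mul_sum]
          refine Finset.sum_congr rfl fun a _ => ?_
          rw [Finset.mul_sum, Finset.mul_sum]
      _ ≤ _ := by
          refine add_le_add le_rfl ?_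
          have hE := Real.exp_pos (-(κ * (c1 * z)))
          have p1 : (P.card : ℝ) ≤ d1 * z := (card_Pr _ _ hbz).trans hbdz
          have p2 : (Q.card : ℝ) ≤ d1 * z := card_Pr _ _ hdz
          have p3 : (V.card : ℝ) ≤ d1 * z := card_Pr _ _ hdz
          calc (P.card : ℝ) * (Q.card * (V.card * Real.exp (-(κ * (c1 * z))))) ≤
              (d1 * z) * ((d1 * z) * ((d1 * z) * Real.exp (-(κ * (c1 * z))))) := by gcongr
            _ = _ := by ring
  have hS2 : 0 ≤ ∑ a ∈ P, ∑ b ∈ V, (if a ≠ b then I x0 x1 y0 y1 a b else 0) :=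
    Finset.sum_nonneg fun a _ => Finset.sum_nonneg fun b _ => by
      split_ifs
      · exact I_nonneg _ _ _ _ _ _
      · exact le_rfl
  have hS1 : 0 ≤ ∑ c ∈ Q, w c := Finset.sum_nonneg fun c _ => w_nonneg c
  have hsum2 : ∑ a ∈ P, ∑ c ∈ Q, ∑ b ∈ V,
        (if b ≠ a ∧ b ≠ c then ∫ z in Bx u0 u1 v0 v1, F3 a b c z else 0) ≤
      8 * K * l2 * TB * (l1 * l3) := by
    refine hsum.trans ?_
    have h1 : (∑ c ∈ Q, w c) * (∑ a ∈ P, ∑ b ∈ V, if a ≠ b then I x0 x1 y0 y1 a b else 0) ≤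
        (2 * l2) * (2 * (TB * (l1 * l3))) := mul_le_mul g1.le g2.le hS2 (by positivity)
    have h2 := mul_le_mul_of_nonneg_left h1 hKpos.le
    have h3 : K * ((2 * l2) * (2 * (TB * (l1 * l3)))) + e0 = 8 * K * l2 * TB * (l1 * l3) := by
      rw [he0]; ring
    linarith
  have hlow : TS * (l1 * l2) / 2 ≤ ∑ a ∈ P, ∑ c ∈ Q, I u0 u1 v0 v1 a c := by
    refine g3.le.trans (Finset.sum_le_sum fun a _ => Finset.sum_le_sum fun c _ => ?_)
    split_ifs
    · exact le_rfl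
    · exact I_nonneg _ _ _ _ _ _
  have hM' : (2 : ℝ) ≤ M := by exact_mod_cast hM
  have hM1 : (0 : ℝ) < (M : ℝ) - 1 := by linarith
  have hfin : 1 / ((M : ℝ) - 1) * (8 * K * l2 * TB * (l1 * l3)) ≤ TS * (l1 * l2) / 4 := by
    rw [div_mul_eq_mul_div, one_mul, div_le_iff₀ hM1]
    have h1 : 0 ≤ l1 * l2 / 4 := by positivity
    have h2 := mul_le_mul_of_nonneg_left hMK h1
    calc 8 * K * l2 * TB * (l1 * l3) = l1 * l2 / 4 * (32 * K * l3 * TB) := by ring
      _ ≤ l1 * l2 / 4 * (((M : ℝ) - 1) * TS) := h2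
      _ = _ := by ring
  have h4 : 1 / ((M : ℝ) - 1) * (∑ a ∈ P, ∑ c ∈ Q, ∑ b ∈ V,
        (if b ≠ a ∧ b ≠ c then ∫ z in Bx u0 u1 v0 v1, F3 a b c z else 0)) ≤
      1 / ((M : ℝ) - 1) * (8 * K * l2 * TB * (l1 * l3)) :=
    mul_le_mul_of_nonneg_left hsum2 (by positivity)
  linarith

end Pool.Agent.Run7.h129.Two
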