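import Mathlib
import Pool.Agent.Run7.h129.Two.Local

set_option autoImplicit false

/-!
# Infinitely many scales for almost every pair
-/

namespace Pool.Agent.Run7.h129.Two

open Finset Filter Topology MeasureTheory Metric
open Pool.Agent.H305R2 (ff NN ff_nonneg ff_le_one measurable_ff measurable_NN integrableOn_ff
  roughPart)
open Pool.Agent.Y122.PC (Bx Pr mem_Pr T eg eg_pos)

lemma vol_ball (p : ℝ × ℝ) {r : ℝ} (hr : 0 < r) :
    volume (closedBall p r) = ENNReal.ofReal (4 * r ^ 2) := by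
  obtain ⟨x, y⟩ := p
  rw [← closedBall_prod_same, Measure.volume_eq_prod, Measure.prod_prod, Real.volume_closedBall,
    Real.volume_closedBall, ← ENNReal.ofReal_mul (by positivity)]
  congr 1
  ring

/-- a set whose relative measure in all small squares around its points is bounded away from one
is a null set -/
lemma null_of_balls {A : Set (ℝ × ℝ)} (hA : MeasurableSet A) {c : ℝ} (hc : 0 < c)
    (h : ∀ p ∈ A, ∀ᶠ r in 𝓝[>] (0 : ℝ), volume.real (A ∩ closedBall p r) ≤ (1 - c) * (4 * r ^ 2)) :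
    volume A = 0 := by
  have key := Besicovitch.ae_tendsto_measure_inter_div (volume : Measure (ℝ × ℝ)) A
  rw [ae_restrict_iff' hA] at key
  have h0 : ∀ᵐ p : ℝ × ℝ, p ∉ A := by
    filter_upwards [key] with p hp hpA
    have hlim := hp hpA
    have hle : ∀ᶠ r in 𝓝[>] (0 : ℝ), volume (A ∩ closedBall p r) / volume (closedBall p r) ≤
        ENNReal.ofReal (1 - c) := by
      filter_upwards [h p hpA, self_mem_nhdsWithin] with r hr1 hr2
      have hr0 : 0 < r := hr2
      have hr4 : 0 < 4 * r ^ 2 := by positivity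
      refine ENNReal.div_le_of_le_mul ?_
      rw [vol_ball p hr0]
      have hfin : volume (A ∩ closedBall p r) ≠ ⊤ :=
        ((measure_mono Set.inter_subset_right).trans_lt
          (by rw [vol_ball p hr0]; exact ENNReal.ofReal_lt_top)).ne
      have h1c : 0 ≤ 1 - c := by
        have h2 : 0 ≤ (1 - c) * (4 * r ^ 2) := le_trans measureReal_nonneg hr1
        exact nonneg_of_mul_nonneg_left h2 hr4
      rw [← ENNReal.ofReal_mul h1c, ← ENNReal.ofReal_toReal hfin]
      exact ENNReal.ofReal_le_ofReal hr1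
    have h1 := le_of_tendsto hlim hle
    rw [ENNReal.one_le_ofReal] at h1
    linarith
  rw [ae_iff] at h0
  simpa using h0

/-- **Infinitely many scales.** -/
theorem ae_frequently : ∃ K0 : ℝ, 0 < K0 ∧ ∀ X0 X1 s a1 b1 c1 d1 : ℝ, 0 < X0 → X0 < X1 → 0 < s → s < 1 →
    0 < a1 → a1 < b1 → b1 = (1 - s) * c1 → c1 < d1 → ∀ M : ℕ, 2 ≤ M →
    256 * (K0 * (4 / (s * X0) + 1)) * Real.log (d1 / a1) ≤ (M : ℝ) - 1 →
    ∀ᵐ p : ℝ × ℝ, X0 < p.1 → p.1 < X1 → ∃ᶠ z : ℕ in atTop,
      p ∈ Ev (Pr (a1 * z) (b1 * z)) (Pr (c1 * z) (d1 * z)) (Pr (a1 * z) (d1 * z)) M := by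
  obtain ⟨K0, hK0, hev⟩ := event_lower
  refine ⟨K0, hK0, ?_⟩
  intro X0 X1 s a1 b1 c1 d1 hX0 hX01 hs hs1 ha hab hbc hcd M hM hMK
  have hM' : (2 : ℝ) ≤ M := by exact_mod_cast hM
  have hX1 : 0 < X1 := hX0.trans hX01
  have hb : 0 < b1 := ha.trans hab
  have hc : 0 < c1 := by
    by_contra h
    have : (1 - s) * c1 ≤ 0 := mul_nonpos_of_nonneg_of_nonpos (by linarith) (not_lt.1 h)
    linarith
  have hbc' : b1 < c1 := by
    rw [hbc]
    nlinarith
  have hl1' : 0 < Real.log (b1 / a1) := Real.log_pos ((one_lt_div ha).2 hab)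
  have hl2' : 0 < Real.log (d1 / c1) := Real.log_pos ((one_lt_div hc).2 hcd)
  have hl3' : 0 < Real.log (d1 / a1) := Real.log_pos ((one_lt_div ha).2 (by linarith))
  set E : ℕ → Set (ℝ × ℝ) := fun z =>
    Ev (Pr (a1 * z) (b1 * z)) (Pr (c1 * z) (d1 * z)) (Pr (a1 * z) (d1 * z)) M with hE
  have hEm : ∀ z, MeasurableSet (E z) := fun z => measurableSet_Ev _ _ _ _
  set c0 : ℝ := eg ^ 2 * (Real.log (b1 / a1) * Real.log (d1 / c1)) / (4 * (M : ℝ) ^ 2 * X1 ^ 2)
    with hc0
  have heg := eg_pos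
  have hc0pos : 0 < c0 := by positivity
  set A : ℕ → Set (ℝ × ℝ) := fun n => {p | X0 < p.1 ∧ p.1 < X1} ∩ ⋂ z ≥ n, (E z)ᶜ with hA
  have hAm : ∀ n, MeasurableSet (A n) := by
    intro n
    refine MeasurableSet.inter ?_ (MeasurableSet.iInter fun z => MeasurableSet.iInter fun _ => (hEm z).compl)
    exact (measurableSet_lt measurable_const measurable_fst).inter
      (measurableSet_lt measurable_fst measurable_const)
  have hnull : ∀ n, volume (A n) = 0 := by
    intro n
    refine null_of_balls (hAm n) hc0pos ?_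
    rintro ⟨x, y⟩ ⟨⟨hx0, hx1⟩, hpz⟩
    simp only at hx0 hx1
    have hxpos : 0 < x := hX0.trans hx0
    have hr1 : ∀ᶠ r in 𝓝[>] (0 : ℝ), r < (x - X0) / 2 :=
      (eventually_lt_nhds (show (0 : ℝ) < (x - X0) / 2 by linarith)).filter_mono nhdsWithin_le_nhds
    have hr2 : ∀ᶠ r in 𝓝[>] (0 : ℝ), r < x * s / 8 :=
      (eventually_lt_nhds (show (0 : ℝ) < x * s / 8 by positivity)).filter_mono nhdsWithin_le_nhds
    filter_upwards [hr1, hr2, self_mem_nhdsWithin] with r g1 g2 g3
    have hr0 : 0 < r := g3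
    have hxs : x * s < x := by nlinarith
    have hr8 : r < x / 8 := by linarith
    have hpos1 : 0 < x ^ 2 - r ^ 2 := by nlinarith
    have hpos2 : 0 < x ^ 2 - 4 * r ^ 2 := by nlinarith
    have eTB : T (x - 2 * r) (x + 2 * r) (y - 2 * r) (y + 2 * r) =
        eg ^ 2 * (16 * r ^ 2) / (x ^ 2 - 4 * r ^ 2) := by
      unfold T
      have h1 : x - 2 * r ≠ 0 := by linarith
      have h2 : x + 2 * r ≠ 0 := by linarith
      have h3 : x ^ 2 - 4 * r ^ 2 = (x - 2 * r) * (x + 2 * r) := by ring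
      rw [h3]
      field_simp
      ring
    have eTS : T (x - r) (x + r) (y - r) (y + r) = eg ^ 2 * (4 * r ^ 2) / (x ^ 2 - r ^ 2) := by
      unfold T
      have h1 : x - r ≠ 0 := by linarith
      have h2 : x + r ≠ 0 := by linarith
      have h3 : x ^ 2 - r ^ 2 = (x - r) * (x + r) := by ring
      rw [h3]
      field_simp
      ring
    have hTT : T (x - 2 * r) (x + 2 * r) (y - 2 * r) (y + 2 * r) ≤
        8 * T (x - r) (x + r) (y - r) (y + r) := by
      rw [eTB, eTS, mul_div_assoc', div_le_div_iff₀ hpos2 hpos1]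
      have h1 : 2 * (x ^ 2 - r ^ 2) ≤ 4 * (x ^ 2 - 4 * r ^ 2) := by nlinarith
      have h2 : 0 ≤ 8 * (eg ^ 2 * r ^ 2) := by positivity
      nlinarith [mul_le_mul_of_nonneg_left h1 h2]
    have hTS0 : 0 < T (x - r) (x + r) (y - r) (y + r) := by
      rw [eTS]; positivity
    have hlow := hev X0 s (x - 2 * r) (x + 2 * r) (y - 2 * r) (y + 2 * r) (x - r) (x + r) (y - r)
      (y + r) r hX0 (by linarith) (by linarith) hs hs1 (by nlinarith) hr0 (by linarith) (by linarith)
      (by linarith) (by linarith) (by linarith) (by linarith) a1 b1 c1 d1 ha hab hbc hcd M hM (by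
        have h1 : 0 ≤ 32 * (K0 * (4 / (s * X0) + 1)) * Real.log (d1 / a1) := by positivity
        calc 32 * (K0 * (4 / (s * X0) + 1)) * Real.log (d1 / a1) *
            T (x - 2 * r) (x + 2 * r) (y - 2 * r) (y + 2 * r) ≤
            32 * (K0 * (4 / (s * X0) + 1)) * Real.log (d1 / a1) *
              (8 * T (x - r) (x + r) (y - r) (y + r)) := mul_le_mul_of_nonneg_left hTT h1
          _ = 256 * (K0 * (4 / (s * X0) + 1)) * Real.log (d1 / a1) *
              T (x - r) (x + r) (y - r) (y + r) := by ring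
          _ ≤ _ := mul_le_mul_of_nonneg_right hMK hTS0.le)
    obtain ⟨z, hz1, hz2⟩ := ((tendsto_natCast_atTop_atTop (R := ℝ)).eventually hlow).and
      (eventually_ge_atTop n) |>.exists
    -- the two disjoint subsets of the square
    set S := Bx (x - r) (x + r) (y - r) (y + r) with hS
    have hSball : S ⊆ closedBall (x, y) r := by
      rintro ⟨u, v⟩ ⟨⟨h1, h2⟩, h3, h4⟩
      simp only at h1 h2 h3 h4
      rw [← closedBall_prod_same]
      refine ⟨?_, ?_⟩
      · rw [mem_closedBall, Real.dist_eq, abs_le]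
        constructor <;> linarith
      · rw [mem_closedBall, Real.dist_eq, abs_le]
        constructor <;> linarith
    have hdisj : Disjoint (A n ∩ closedBall (x, y) r) (E z ∩ S) := by
      rw [Set.disjoint_left]
      rintro v ⟨⟨_, hv⟩, _⟩ ⟨hv2, _⟩
      rw [Set.mem_iInter₂] at hv
      exact hv z hz2 hv2
    have hfin : volume (closedBall ((x, y) : ℝ × ℝ) r) ≠ ⊤ := by
      rw [vol_ball _ hr0]; exact ENNReal.ofReal_ne_top
    have hun : volume.real (A n ∩ closedBall (x, y) r) + volume.real (E z ∩ S) ≤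
        volume.real (closedBall ((x, y) : ℝ × ℝ) r) := by
      rw [← measureReal_union hdisj ((hEm z).inter (measurableSet_Bx _ _ _ _))
        (ne_top_of_le_ne_top hfin (measure_mono Set.inter_subset_right))
        (ne_top_of_le_ne_top hfin (measure_mono (Set.inter_subset_right.trans hSball)))]
      exact measureReal_mono (Set.union_subset Set.inter_subset_right
        (Set.inter_subset_right.trans hSball)) hfin
    have hball : volume.real (closedBall ((x, y) : ℝ × ℝ) r) = 4 * r ^ 2 := by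
      rw [Measure.real, vol_ball _ hr0, ENNReal.toReal_ofReal (by positivity)]
    rw [hball] at hun
    have hlow2 : c0 * (4 * r ^ 2) ≤ volume.real (E z ∩ S) := by
      have hM0 : (0 : ℝ) < (M : ℝ) ^ 2 := by positivity
      refine le_of_mul_le_mul_left (le_trans ?_ hz1) hM0
      rw [eTS]
      have h1 : x ^ 2 - r ^ 2 ≤ X1 ^ 2 := by nlinarith
      have h2 : eg ^ 2 * (4 * r ^ 2) / X1 ^ 2 ≤ eg ^ 2 * (4 * r ^ 2) / (x ^ 2 - r ^ 2) :=
        div_le_div_of_nonneg_left (by positivity) hpos1 h1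
      have h3 := mul_le_mul_of_nonneg_right h2
        (show 0 ≤ Real.log (b1 / a1) * Real.log (d1 / c1) / 4 by positivity)
      refine le_trans (le_of_eq ?_) (h3.trans (le_of_eq ?_))
      · rw [hc0]
        field_simp
      · ring
    linarith
  have hall : volume (⋃ n, A n) = 0 := measure_iUnion_null hnull
  rw [measure_eq_zero_iff_ae_notMem] at hall
  filter_upwards [hall] with p hp h0 h1
  by_contra hcon
  rw [not_frequently, eventually_atTop] at hcon
  obtain ⟨n, hn⟩ := hcon
  apply hp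
  rw [Set.mem_iUnion]
  refine ⟨n, ⟨h0, h1⟩, ?_⟩
  rw [Set.mem_iInter₂]
  exact fun z hz => hn z hz

end Pool.Agent.Run7.h129.Two
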