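import Mathlib
import Pool.Agent.Run7.h129.Two.AE
import Pool.Agent.Run7.h129.Mer.Lim

set_option autoImplicit false

/-!
# The ratios of the exponents for almost every pair
-/

namespace Pool.Agent.Run7.h129.Two

open Finset Filter Topology MeasureTheory Metric
open Pool.Agent.H305R2 (ff NN roughPart)
open Pool.Agent.Y122.PC (Pr mem_Pr)
open Pool.Agent.Run7.h129.Mer (Consec LimSet isClosed_LimSet)

/-- the exponents of a pair -/
def Ex (v : ℝ × ℝ) (p : ℕ) : Prop := p.Prime ∧ (roughPart p (NN (p * v.1 + v.2))).Prime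

noncomputable instance (v : ℝ × ℝ) : DecidablePred (Ex v) := fun p => by
  unfold Ex; infer_instance

/-- one of the consecutive gaps is at least as large as the average -/
lemma gap_exists (E : ℕ → Prop) [DecidablePred E] (k : ℕ) : ∀ p q : ℕ, 0 < p → E p → E q → p < q →
    ((Finset.Ioc p q).filter E).card ≤ k + 1 → ∃ p' q', p ≤ p' ∧ q' ≤ q ∧ Consec E p' q' ∧
      Real.log ((q : ℝ) / p) ≤ (k + 1) * Real.log ((q' : ℝ) / p') := by
  induction k with
  | zero =>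
    intro p q hp0 hp hq hpq hc
    refine ⟨p, q, le_rfl, le_rfl, ⟨hp, hq, hpq, fun r h1 h2 hr => ?_⟩, by simp⟩
    have hsub : ({r, q} : Finset ℕ) ⊆ (Finset.Ioc p q).filter E := by
      intro x hx
      rw [mem_insert, mem_singleton] at hx
      rw [mem_filter, mem_Ioc]
      rcases hx with rfl | rfl
      · exact ⟨⟨h1, h2.le⟩, hr⟩
      · exact ⟨⟨hpq, le_rfl⟩, hq⟩
    have := Finset.card_le_card hsub
    rw [Finset.card_pair (by omega)] at this
    omega
  | succ k ih =>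
    intro p q hp0 hp hq hpq hc
    -- the next element
    have hne : ((Finset.Ioc p q).filter E).Nonempty :=
      ⟨q, mem_filter.2 ⟨mem_Ioc.2 ⟨hpq, le_rfl⟩, hq⟩⟩
    set m := ((Finset.Ioc p q).filter E).min' hne with hm
    have hmem := Finset.min'_mem _ hne
    rw [← hm, mem_filter, mem_Ioc] at hmem
    obtain ⟨⟨hpm, hmq⟩, hEm⟩ := hmem
    have hcons : Consec E p m := by
      refine ⟨hp, hEm, hpm, fun r h1 h2 hr => ?_⟩
      have h3 : m ≤ r := Finset.min'_le _ _ (mem_filter.2 ⟨mem_Ioc.2 ⟨h1, by omega⟩, hr⟩)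
      omega
    have hp0' : (0 : ℝ) < p := by exact_mod_cast hp0
    have hm0 : (0 : ℝ) < m := by exact_mod_cast hp0.trans hpm
    have hq0 : (0 : ℝ) < q := by exact_mod_cast hp0.trans hpq
    by_cases hlarge : Real.log ((q : ℝ) / p) ≤ (((k + 1 : ℕ) : ℝ) + 1) * Real.log ((m : ℝ) / p)
    · exact ⟨p, m, le_rfl, hmq, hcons, hlarge⟩
    · push Not at hlarge
      have hmq' : m < q := by
        rcases hmq.eq_or_lt with h | h
        · exfalso
          rw [h] at hlarge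
          have h1 : 0 ≤ Real.log ((q : ℝ) / p) := Real.log_nonneg (by
            rw [le_div_iff₀ hp0', one_mul]; exact_mod_cast hpq.le)
          push_cast at hlarge
          nlinarith
        · exact h
      obtain ⟨p', q', h1, h2, h3, h4⟩ := ih m q (hp0.trans hpm) hEm hq hmq' (by
        have hsub : (Finset.Ioc m q).filter E ⊆ ((Finset.Ioc p q).filter E).erase m := by
          intro x hx
          rw [mem_filter, mem_Ioc] at hx
          rw [mem_erase, mem_filter, mem_Ioc]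
          exact ⟨by omega, ⟨by omega, hx.1.2⟩, hx.2⟩
        have h5 := Finset.card_le_card hsub
        rw [Finset.card_erase_of_mem (mem_filter.2 ⟨mem_Ioc.2 ⟨hpm, hmq⟩, hEm⟩)] at h5
        omega)
      refine ⟨p', q', by omega, h2, h3, ?_⟩
      have e : Real.log ((q : ℝ) / p) = Real.log ((q : ℝ) / m) + Real.log ((m : ℝ) / p) := by
        rw [← Real.log_mul (by positivity) (by positivity)]
        congr 1
        field_simp
      push_cast at hlarge ⊢
      have hk : (0 : ℝ) ≤ k := Nat.cast_nonneg k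
      -- `L = A + B`, `A ≤ (k+1) G`, `(k+2) B < L`
      set L := Real.log ((q : ℝ) / p)
      set A := Real.log ((q : ℝ) / m)
      set B := Real.log ((m : ℝ) / p)
      set G := Real.log ((q' : ℝ) / p')
      have h6 : ((k : ℝ) + 1) * L ≤ ((k : ℝ) + 1 + 1) * A := by nlinarith
      have h7 : ((k : ℝ) + 1 + 1) * A ≤ ((k : ℝ) + 1 + 1) * ((k + 1) * G) :=
        mul_le_mul_of_nonneg_left h4 (by positivity)
      have h8 : ((k : ℝ) + 1) * L ≤ ((k : ℝ) + 1) * (((k : ℝ) + 1 + 1) * G) := by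
        calc ((k : ℝ) + 1) * L ≤ ((k : ℝ) + 1 + 1) * ((k + 1) * G) := h6.trans h7
          _ = _ := by ring
      exact le_of_mul_le_mul_left h8 (by positivity)

/-- infinitely many gaps in a compact interval have a limit point there -/
lemma limit_exists {E : ℕ → Prop} {α β : ℝ} (h : ∃ᶠ p : ℕ in atTop, ∃ q : ℕ, Consec E p q ∧
    α ≤ Real.log ((q : ℝ) / p) ∧ Real.log ((q : ℝ) / p) ≤ β) : ∃ t ∈ Set.Icc α β, t ∈ LimSet E := by
  classical
  set A : Set ℕ := {p | ∃ q : ℕ, Consec E p q ∧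
    α ≤ Real.log ((q : ℝ) / p) ∧ Real.log ((q : ℝ) / p) ≤ β} with hA
  set Q : ℕ → ℕ := fun p => if hp : p ∈ A then hp.choose else 0 with hQ
  have hQs : ∀ p ∈ A, Consec E p (Q p) ∧ α ≤ Real.log ((Q p : ℝ) / p) ∧
      Real.log ((Q p : ℝ) / p) ≤ β := by
    intro p hp
    have e : Q p = hp.choose := by simp only [hQ]; rw [dif_pos hp]
    rw [e]
    exact hp.choose_spec
  have hne : (atTop ⊓ 𝓟 A : Filter ℕ).NeBot := frequently_mem_iff_neBot.1 h
  obtain ⟨t, ht, hcl⟩ := (isCompact_Icc (a := α) (b := β)).exists_mapClusterPt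
    (f := atTop ⊓ 𝓟 A) (u := fun p => Real.log ((Q p : ℝ) / p)) (by
      rw [le_principal_iff, Filter.mem_map]
      refine Filter.mem_inf_of_right ?_
      rw [mem_principal]
      intro j hj
      exact (hQs j hj).2)
  refine ⟨t, ht, fun ε hε => ?_⟩
  have h1 := mapClusterPt_iff_frequently.1 hcl (ball t ε) (ball_mem_nhds t hε)
  rw [frequently_inf_principal] at h1
  refine h1.mono fun j hj => ⟨Q j, (hQs j hj.1).1, ?_⟩
  have := hj.2
  rwa [mem_ball, Real.dist_eq] at this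

/-- the exponents given by the event -/
lemma extract {t δ : ℝ} (hδ : 0 < δ) (hδt : δ < t) {z M : ℕ} (hz : 1 ≤ z) {v : ℝ × ℝ}
    (hv : v ∈ Ev (Pr (1 * z) (Real.exp δ * z)) (Pr (Real.exp t * z) (Real.exp (t + δ) * z))
      (Pr (1 * z) (Real.exp (t + δ) * z)) M) :
    ∃ p q : ℕ, z < p ∧ Ex v p ∧ Ex v q ∧ p < q ∧ t - δ ≤ Real.log ((q : ℝ) / p) ∧
      Real.log ((q : ℝ) / p) ≤ t + δ ∧ ((Finset.Ioc p q).filter (Ex v)).card ≤ M := by
  obtain ⟨h1, h2, h3⟩ := hv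
  have hz0 : (0 : ℝ) < z := by exact_mod_cast hz
  obtain ⟨p, hp⟩ := Finset.card_pos.1 h1
  obtain ⟨q, hq⟩ := Finset.card_pos.1 h2
  rw [mem_filter, mem_Pr (by positivity) (by positivity)] at hp hq
  obtain ⟨⟨hp1, hp2, hp3⟩, hp4⟩ := hp
  obtain ⟨⟨hq1, hq2, hq3⟩, hq4⟩ := hq
  rw [one_mul] at hp2
  have hp0 : (0 : ℝ) < p := hz0.trans hp2
  have hexp : Real.exp δ * z < Real.exp t * z :=
    mul_lt_mul_of_pos_right (Real.exp_lt_exp.2 hδt) hz0
  have hpq : (p : ℝ) < q := by linarith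
  have hq0 : (0 : ℝ) < q := hp0.trans hpq
  refine ⟨p, q, by exact_mod_cast hp2, ⟨hp1, hp4⟩, ⟨hq1, hq4⟩, by exact_mod_cast hpq, ?_, ?_, ?_⟩
  · rw [Real.le_log_iff_exp_le (by positivity), le_div_iff₀ hp0]
    calc Real.exp (t - δ) * p ≤ Real.exp (t - δ) * (Real.exp δ * z) :=
          mul_le_mul_of_nonneg_left hp3 (Real.exp_pos _).le
      _ = Real.exp t * z := by rw [← mul_assoc, ← Real.exp_add]; congr 2; ring
      _ ≤ q := hq2.le
  · rw [Real.log_le_iff_le_exp (by positivity), div_le_iff₀ hp0]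
    calc (q : ℝ) ≤ Real.exp (t + δ) * z := hq3
      _ ≤ _ := mul_le_mul_of_nonneg_left hp2.le (Real.exp_pos _).le
  · refine le_trans (Finset.card_le_card ?_) h3
    intro r hr
    rw [mem_filter, mem_Ioc] at hr
    rw [mem_filter, mem_Pr (by positivity) (by positivity), one_mul]
    have h4 : (p : ℝ) < r := by exact_mod_cast hr.1.1
    have h5 : (r : ℝ) ≤ q := by exact_mod_cast hr.1.2
    exact ⟨⟨hr.2.1, by linarith, by linarith⟩, hr.2.2⟩

/-- the countable family of events -/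
lemma family : ∃ K0 : ℝ, 0 < K0 ∧ ∀ᵐ v : ℝ × ℝ, ∀ (k : ℕ) (t δ : ℚ) (M : ℕ), 1 ≤ k → (0 : ℝ) < δ →
    (δ : ℝ) < t → 2 ≤ M →
    256 * (K0 * (4 / ((1 - Real.exp ((δ : ℝ) - t)) * (1 / ((k : ℝ) + 1))) + 1)) * ((t : ℝ) + δ) ≤
      (M : ℝ) - 1 → 1 / ((k : ℝ) + 1) < v.1 → v.1 < (k : ℝ) + 1 → ∃ᶠ z : ℕ in atTop,
      v ∈ Ev (Pr (1 * z) (Real.exp δ * z)) (Pr (Real.exp t * z) (Real.exp ((t : ℝ) + δ) * z))
      (Pr (1 * z) (Real.exp ((t : ℝ) + δ) * z)) M := by
  obtain ⟨K0, hK0, h⟩ := ae_frequently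
  refine ⟨K0, hK0, ?_⟩
  rw [ae_all_iff]; intro k
  rw [ae_all_iff]; intro t
  rw [ae_all_iff]; intro δ
  rw [ae_all_iff]; intro M
  by_cases hcond : 1 ≤ k ∧ (0 : ℝ) < δ ∧ (δ : ℝ) < t ∧ 2 ≤ M ∧
      256 * (K0 * (4 / ((1 - Real.exp ((δ : ℝ) - t)) * (1 / ((k : ℝ) + 1))) + 1)) * ((t : ℝ) + δ) ≤
      (M : ℝ) - 1
  · obtain ⟨hk, hδ, hδt, hM, hMK⟩ := hcond
    have hk1 : (1 : ℝ) ≤ k := by exact_mod_cast hk
    have hk0 : (0 : ℝ) < (k : ℝ) + 1 := by linarith
    have he1 : Real.exp ((δ : ℝ) - t) < 1 := by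
      rw [Real.exp_lt_one_iff]; linarith
    have he0 := Real.exp_pos ((δ : ℝ) - t)
    have h1 := h (1 / ((k : ℝ) + 1)) ((k : ℝ) + 1) (1 - Real.exp ((δ : ℝ) - t)) 1 (Real.exp δ)
      (Real.exp t) (Real.exp ((t : ℝ) + δ)) (by positivity) (by
        rw [div_lt_iff₀ hk0]; nlinarith) (by linarith) (by linarith) one_pos
        (Real.one_lt_exp_iff.2 hδ) (by
        rw [sub_sub_cancel, ← Real.exp_add]; congr 1; ring) (Real.exp_lt_exp.2 (by linarith)) M hM (by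
        rw [div_one, Real.log_exp]
        exact hMK)
    filter_upwards [h1] with v hv _ _ _ _ _ h2 h3
    exact hv h2 h3
  · refine Eventually.of_forall fun v h1 h2 h3 h4 h5 => ?_
    exact absurd ⟨h1, h2, h3, h4, h5⟩ hcond

lemma exists_k {x : ℝ} (hx : 0 < x) : ∃ k : ℕ, 1 ≤ k ∧ 1 / ((k : ℝ) + 1) < x ∧ x < (k : ℝ) + 1 := by
  obtain ⟨n, hn⟩ := exists_nat_gt (max x (1 / x))
  refine ⟨n + 1, by omega, ?_, ?_⟩
  · have h1 : 1 / x < (n : ℝ) := (le_max_right _ _).trans_lt hn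
    push_cast
    rw [div_lt_iff₀ (by positivity)]
    rw [div_lt_iff₀ hx] at h1
    nlinarith
  · have h1 : x < (n : ℝ) := (le_max_left _ _).trans_lt hn
    push_cast
    linarith

/-- **Both statements.** -/
theorem main : ∀ᵐ v : ℝ × ℝ, 0 < v.1 →
    (∀ t : ℝ, 0 ≤ t → ∀ ε : ℝ, 0 < ε → ∃ᶠ p : ℕ in atTop, ∃ q : ℕ, Ex v p ∧ Ex v q ∧ p < q ∧
      |Real.log ((q : ℝ) / p) - t| < ε) ∧
    (∃ c : ℝ, 0 < c ∧ ∀ t : ℝ, 0 < t → t ≤ 1 → ∃ l ∈ Set.Icc (c * t) t, l ∈ LimSet (Ex v)) := by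
  obtain ⟨K0, hK0, hfam⟩ := family
  filter_upwards [hfam] with v hv hv0
  obtain ⟨k, hk, hk1, hk2⟩ := exists_k hv0
  have hk0 : (0 : ℝ) < (k : ℝ) + 1 := by positivity
  constructor
  · intro t ht ε hε
    obtain ⟨t', ht1, ht2⟩ := exists_rat_btwn (show t < t + ε / 2 by linarith)
    have ht'0 : (0 : ℝ) < t' := by linarith
    obtain ⟨δ, hδ1, hδ2⟩ := exists_rat_btwn (show (0 : ℝ) < min (t' : ℝ) (ε / 2) from
      lt_min ht'0 (by positivity))
    have hδ3 : (δ : ℝ) < t' := hδ2.trans_le (min_le_left _ _)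
    have hδ4 : (δ : ℝ) < ε / 2 := hδ2.trans_le (min_le_right _ _)
    obtain ⟨M, hM⟩ := exists_nat_gt (256 * (K0 * (4 / ((1 - Real.exp ((δ : ℝ) - t')) *
      (1 / ((k : ℝ) + 1))) + 1)) * ((t' : ℝ) + δ))
    have hfr := hv k t' δ (M + 2) hk hδ1 hδ3 (by omega) (by push_cast; linarith) hk1 hk2
    rw [frequently_atTop] at hfr ⊢
    intro n
    obtain ⟨z, hz1, hz2⟩ := hfr (n + 1)
    obtain ⟨p, q, g1, g2, g3, g4, g5, g6, _⟩ := extract hδ1 hδ3 (by omega) hz2
    refine ⟨p, by omega, q, g2, g3, g4, ?_⟩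
    rw [abs_lt]
    constructor <;> linarith
  · -- the uniform bound
    obtain ⟨M, hM⟩ := exists_nat_gt (256 * (K0 * (40 / 3 * ((k : ℝ) + 1) + 5 / 4)))
    have hMpos : (0 : ℝ) < (M : ℝ) + 2 := by positivity
    refine ⟨3 / (8 * ((M : ℝ) + 2)), by positivity, fun t ht ht1 => ?_⟩
    obtain ⟨t', ht2, ht3⟩ := exists_rat_btwn (show t / 2 < 4 * t / 5 by linarith)
    have ht'0 : (0 : ℝ) < t' := by linarith
    have ht'1 : (t' : ℝ) < 1 := by linarith
    set u : ℝ := 3 / 4 * t' with hu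
    have hu0 : 0 < u := by positivity
    have hu1 : u < 1 := by rw [hu]; linarith
    have hexp : Real.exp (((t' / 4 : ℚ) : ℝ) - t') ≤ 1 - u / 2 := by
      have e1 : ((t' / 4 : ℚ) : ℝ) - t' = -u := by rw [hu]; push_cast; ring
      rw [e1, Real.exp_neg]
      have h1 := Real.add_one_le_exp u
      rw [inv_le_comm₀ (Real.exp_pos _) (by linarith)]
      refine le_trans ?_ h1
      rw [inv_le_iff_one_le_mul₀ (by linarith)]
      nlinarith
    have hsk : 4 / ((1 - Real.exp (((t' / 4 : ℚ) : ℝ) - t')) * (1 / ((k : ℝ) + 1))) ≤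
        32 / 3 * ((k : ℝ) + 1) / t' := by
      have h1 : 3 / 8 * (t' : ℝ) ≤ 1 - Real.exp (((t' / 4 : ℚ) : ℝ) - t') := by
        rw [hu] at hexp; linarith
      have h2 : 0 < 1 - Real.exp (((t' / 4 : ℚ) : ℝ) - t') := by
        have : 0 < 3 / 8 * (t' : ℝ) := by positivity
        linarith
      rw [div_le_div_iff₀ (by positivity) ht'0]
      have e2 : 32 / 3 * ((k : ℝ) + 1) * ((1 - Real.exp (((t' / 4 : ℚ) : ℝ) - t')) *
          (1 / ((k : ℝ) + 1))) = 32 / 3 * (1 - Real.exp (((t' / 4 : ℚ) : ℝ) - t')) := by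
        field_simp
      rw [e2]
      linarith
    have hcond : 256 * (K0 * (4 / ((1 - Real.exp (((t' / 4 : ℚ) : ℝ) - t')) *
        (1 / ((k : ℝ) + 1))) + 1)) * ((t' : ℝ) + ((t' / 4 : ℚ) : ℝ)) ≤ ((M + 2 : ℕ) : ℝ) - 1 := by
      have e3 : (t' : ℝ) + ((t' / 4 : ℚ) : ℝ) = 5 / 4 * t' := by push_cast; ring
      rw [e3]
      calc 256 * (K0 * (4 / ((1 - Real.exp (((t' / 4 : ℚ) : ℝ) - t')) *
            (1 / ((k : ℝ) + 1))) + 1)) * (5 / 4 * (t' : ℝ)) ≤
            256 * (K0 * (32 / 3 * ((k : ℝ) + 1) / t' + 1)) * (5 / 4 * (t' : ℝ)) := by gcongr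
        _ = 256 * (K0 * (40 / 3 * ((k : ℝ) + 1) + 5 / 4 * t')) := by field_simp; ring
        _ ≤ 256 * (K0 * (40 / 3 * ((k : ℝ) + 1) + 5 / 4)) := by
            gcongr
            linarith
        _ ≤ ((M + 2 : ℕ) : ℝ) - 1 := by push_cast; linarith
    have hδ0 : (0 : ℝ) < ((t' / 4 : ℚ) : ℝ) := by push_cast; positivity
    have hδt : ((t' / 4 : ℚ) : ℝ) < t' := by push_cast; linarith
    have hfr := hv k t' (t' / 4) (M + 2) hk hδ0 hδt (by omega) hcond hk1 hk2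
    refine limit_exists ?_
    rw [frequently_atTop] at hfr ⊢
    intro n
    obtain ⟨z, hz1, hz2⟩ := hfr (n + 1)
    obtain ⟨p, q, g1, g2, g3, g4, g5, g6, g7⟩ := extract hδ0 hδt (by omega) hz2
    obtain ⟨p', q', r1, r2, r3, r4⟩ := gap_exists (Ex v) (M + 1) p q (by omega) g2 g3 g4 (by omega)
    have hp0 : (0 : ℝ) < p := by exact_mod_cast (by omega : 0 < p)
    have hp'0 : (0 : ℝ) < p' := by exact_mod_cast (by omega : 0 < p')
    have hpq' := r3.2.2.1
    have hq'0 : (0 : ℝ) < q' := by exact_mod_cast (by omega : 0 < q')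
    refine ⟨p', by omega, q', r3, ?_, ?_⟩
    · push_cast at r4 g5
      have h1 : 3 / 8 * t ≤ ((M : ℝ) + 2) * Real.log ((q' : ℝ) / p') := by
        have e4 : ((M : ℝ) + 1 + 1) = (M : ℝ) + 2 := by ring
        rw [e4] at r4
        linarith
      have e5 : 3 / (8 * ((M : ℝ) + 2)) * t = (3 / 8 * t) / ((M : ℝ) + 2) := by field_simp
      rw [e5, div_le_iff₀ hMpos]
      linarith
    · have h1 : Real.log ((q' : ℝ) / p') ≤ Real.log ((q : ℝ) / p) := by
        refine Real.log_le_log (by positivity) ?_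
        have a1 : (q' : ℝ) ≤ q := by exact_mod_cast r2
        have a2 : (p : ℝ) ≤ p' := by exact_mod_cast r1
        exact div_le_div₀ (by positivity) a1 hp0 a2
      push_cast at g6
      linarith

end Pool.Agent.Run7.h129.Two
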